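import Pool.Agent.NH53.UF.Stm
import Pool.Agent.NH31.M3

/-!
UF-6 (ABS): absorption of vertical poles.
-/

set_option autoImplicit false

open FF Pool.Agent.W602.GT Pool.Agent.W603.LV Pool.Agent.Y172 Pool.Agent.NH31

namespace Pool.Agent.NH53.UF

theorem t_ABS : S_ABS := by
  classical
  intro K _ _ N y _ F D0 D G hDf' hD0 a σ ha hσ hσ0 hF hhor hGf' hG
  have hDf : {P | P ∈ Pr y ∧ D P ≠ 0}.Finite := hDf'
  have hGf : {P | P ∈ Pr y ∧ G P ≠ 0}.Finite := hGf'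
  -- the constant for the horizontal prime divisors
  obtain ⟨c2, hac2, hc2⟩ : ∃ c2 : ℕ, a ∣ c2 ∧ ∀ P, IsPrimeDivisor y P → Horizontal F P →
      G P ≤ c2 * D P := by
    refine ⟨a * ∑ P ∈ hGf.toFinset, ⌈G P / D P⌉₊, Dvd.intro _ rfl, fun P hP hH => ?_⟩
    have h0 := hhor P hP hH
    by_cases hG0 : G P ≤ 0
    · exact hG0.trans (mul_nonneg (Nat.cast_nonneg _) h0)
    have hGpos : 0 < G P := not_le.1 hG0
    have hDpos : 0 < D P := by
      rcases h0.lt_or_eq with h | h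
      · exact h
      · exact absurd (hG P hP hH h.symm) hG0
    have hmem : P ∈ hGf.toFinset := by
      rw [Set.Finite.mem_toFinset]
      exact ⟨hP, hGpos.ne'⟩
    have h1 : ⌈G P / D P⌉₊ ≤ a * ∑ P ∈ hGf.toFinset, ⌈G P / D P⌉₊ := by
      have h2 : ⌈G P / D P⌉₊ ≤ ∑ P ∈ hGf.toFinset, ⌈G P / D P⌉₊ :=
        Finset.single_le_sum (f := fun P => ⌈G P / D P⌉₊) (fun _ _ => Nat.zero_le _) hmem
      exact h2.trans (Nat.le_mul_of_pos_left _ ha)
    have h3 : G P / D P ≤ ((a * ∑ P ∈ hGf.toFinset, ⌈G P / D P⌉₊ : ℕ) : ℚ) :=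
      (Nat.le_ceil _).trans (by exact_mod_cast h1)
    exact (div_le_iff₀ hDpos).1 h3
  -- the vertical prime divisors
  have hTf : {P | (IsPrimeDivisor y P ∧ ¬ Horizontal F P) ∧ (D P ≠ 0 ∨ G P ≠ 0)}.Finite := by
    refine (hDf.union hGf).subset ?_
    rintro P ⟨⟨hP, _⟩, h | h⟩
    · exact Or.inl ⟨hP, h⟩
    · exact Or.inr ⟨hP, h⟩
  set T := hTf.toFinset with hT
  obtain ⟨e, he⟩ : ∃ e : ℚ, e = ∑ P ∈ T, (|G P| + c2 * |D P|) := ⟨_, rfl⟩
  have hnn : ∀ P, 0 ≤ |G P| + (c2 : ℚ) * |D P| := fun P =>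
    add_nonneg (abs_nonneg _) (mul_nonneg (Nat.cast_nonneg _) (abs_nonneg _))
  have he0 : 0 ≤ e := by
    rw [he]
    exact Finset.sum_nonneg fun P _ => hnn P
  have heT : ∀ P ∈ T, |G P| + c2 * |D P| ≤ e := by
    intro P hP
    rw [he]
    exact Finset.single_le_sum (f := fun P => |G P| + (c2 : ℚ) * |D P|) (fun P _ => hnn P) hP
  obtain ⟨m1, t1, ht0, ht1, htT⟩ := exists_van_all (y := y) (F := F) (U := D0) ha hσ hσ0 hF e T (by
    intro P hP
    rw [hT, Set.Finite.mem_toFinset] at hP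
    exact hP.1)
  refine ⟨t1 ^ a, a * m1 + c2, pow_ne_zero _ ht0, dvd_add (Dvd.intro _ rfl) hac2, ?_⟩
  intro m f hf P hP
  by_cases hf0 : f = 0
  · left
    rw [hf0, mul_zero]
  right
  have h1 := (hf P hP).resolve_left hf0
  have h2 := (ht1 P hP).resolve_left ht0
  have h3 := hD0 P hP
  have e1 : (m • D + G) P = m * D P + G P := by
    rw [Pi.add_apply, Pi.smul_apply, nsmul_eq_mul]
  have e2 : ((m + (a * m1 + c2)) • D) P = ((m : ℚ) + (a * m1 + c2)) * D P := by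
    rw [Pi.smul_apply, nsmul_eq_mul]
    push_cast
    ring
  have e3 : (m1 • D0) P = m1 * D0 P := by rw [Pi.smul_apply, nsmul_eq_mul]
  have e4 : ((P.ord (t1 ^ a * f) : ℤ) : ℚ) = a * (P.ord t1 : ℚ) + P.ord f := by
    rw [P.ord_mul (pow_ne_zero _ ht0) hf0, P.ord_pow]
    push_cast
    ring
  rw [e1] at h1
  rw [e3] at h2
  rw [e2, e4]
  have ha0 : (0 : ℚ) ≤ a := Nat.cast_nonneg _
  have ha1 : (1 : ℚ) ≤ a := by exact_mod_cast ha
  have hm0 : (0 : ℚ) ≤ m1 := Nat.cast_nonneg _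
  have h4 : (a : ℚ) * (m1 * D0 P) ≤ a * (m1 * D P) :=
    mul_le_mul_of_nonneg_left (mul_le_mul_of_nonneg_left h3 hm0) ha0
  by_cases hH : Horizontal F P
  · have h5 := hc2 P hP hH
    have h6 := mul_le_mul_of_nonneg_left h2 ha0
    nlinarith
  · by_cases hPT : P ∈ T
    · have h5 := htT P hPT
      have h6 := heT P hPT
      have h7 := mul_le_mul_of_nonneg_left h5 ha0
      have h8 : e ≤ a * e := le_mul_of_one_le_left he0 ha1
      have h9 : G P ≤ |G P| := le_abs_self _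
      have h10 : -((c2 : ℚ) * |D P|) ≤ c2 * D P := by
        rw [← mul_neg]
        exact mul_le_mul_of_nonneg_left (neg_abs_le _) (Nat.cast_nonneg _)
      nlinarith
    · have h5 : D P = 0 ∧ G P = 0 := by
        by_contra hcon
        apply hPT
        rw [hT, Set.Finite.mem_toFinset]
        refine ⟨⟨hP, hH⟩, ?_⟩
        by_contra h6
        push Not at h6
        exact hcon h6
      have h6 := mul_le_mul_of_nonneg_left h2 ha0
      rw [h5.1] at h1 h4 ⊢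
      rw [h5.2] at h1
      nlinarith

end Pool.Agent.NH53.UF
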