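import Pool.Agent.NH53.UF.Stm

/-!
# UF-1 (helper80): the logarithmic vector fields commute; their common constants
-/

set_option autoImplicit false
set_option linter.unusedVariables false

open FF Pool.Agent.W602.GT Pool.Agent.W603.LV Pool.Agent.Y172 Pool.Agent.NH31

namespace Pool.Agent.NH53.UF

namespace COM

open Finset

variable {K : Type} [Field K] [Algebra ℂ K] {r : ℕ}

/-- the constants of a family of derivations, as a field over a field of constants -/
def cst (F : IntermediateField ℂ K) {ι : Type} (δ : ι → Derivation ℂ K K)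
    (h : ∀ i, ∀ f ∈ F, δ i f = 0) : IntermediateField F K where
  carrier := {f | ∀ i, δ i f = 0}
  mul_mem' := by
    intro a b ha hb i
    rw [Derivation.leibniz, ha i, hb i, smul_zero, smul_zero, add_zero]
  one_mem' := fun i => (δ i).map_one_eq_zero
  add_mem' := by
    intro a b ha hb i
    rw [map_add, ha i, hb i, add_zero]
  zero_mem' := fun i => map_zero _
  algebraMap_mem' := fun c i => h i c c.2
  inv_mem' := by
    intro a ha i
    rw [Derivation.leibniz_inv, ha i, smul_zero]

/-- a derivation is linear over its constants -/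
def linD (F : IntermediateField ℂ K) {ι : Type} (δ : ι → Derivation ℂ K K)
    (h : ∀ i, ∀ f ∈ F, δ i f = 0) (i : ι) : Derivation (cst F δ h) K K where
  toFun := δ i
  map_add' := map_add _
  map_smul' := by
    intro c x
    show δ i ((c : K) * x) = (c : K) * δ i x
    rw [Derivation.leibniz, c.2 i, smul_zero, add_zero, smul_eq_mul]
  map_one_eq_zero' := (δ i).map_one_eq_zero
  leibniz' := (δ i).leibniz

theorem alg_zero {L : Type} [Field L] [Algebra L K] [CharZero L] (D : Derivation L K K) {f : K}
    (hf : IsAlgebraic L f) : D f = 0 := by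
  have h1 := D.map_aeval (minpoly L f) f
  rw [minpoly.aeval, map_zero, smul_eq_mul] at h1
  have h2 : (minpoly L f).Separable := (minpoly.irreducible hf.isIntegral).separable
  have h3 : Polynomial.aeval f (Polynomial.derivative (minpoly L f)) ≠ 0 := by
    intro h4
    obtain ⟨a, b, hab⟩ := h2
    have h5 := congrArg (Polynomial.aeval f) hab
    rw [map_add, map_mul, map_mul, minpoly.aeval, h4, mul_zero, mul_zero, add_zero, map_one] at h5
    exact zero_ne_one h5
  exact (mul_eq_zero.1 h1.symm).resolve_left h3

theorem der_zero (F : IntermediateField ℂ K) (u : Fin r → K)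
    (halg : ∀ f : K, IsAlgebraic (Algebra.adjoin F (Set.range u)) f)
    (D : Derivation ℂ K K) (hF : ∀ f ∈ F, D f = 0) (hu : ∀ j, D (u j) = 0) (f : K) : D f = 0 := by
  have hF' : ∀ i : Unit, ∀ f ∈ F, (fun _ => D : Unit → Derivation ℂ K K) i f = 0 := fun _ => hF
  set L := cst F (fun _ => D : Unit → Derivation ℂ K K) hF' with hL
  have hle : Algebra.adjoin F (Set.range u) ≤ L.toSubalgebra := by
    refine Algebra.adjoin_le ?_
    rintro _ ⟨j, rfl⟩
    exact fun _ => hu j
  have h1 : IsAlgebraic L f := by
    obtain ⟨p, hp, hpf⟩ := halg f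
    refine ⟨p.map (Subalgebra.inclusion hle).toRingHom, ?_, ?_⟩
    · exact (Polynomial.map_ne_zero_iff (Subalgebra.inclusion_injective hle)).2 hp
    · rw [Polynomial.aeval_def, Polynomial.eval₂_map]
      exact hpf
  haveI : CharZero L := charZero_of_injective_algebraMap (algebraMap ℂ L).injective
  exact alg_zero (linD F (fun _ => D : Unit → Derivation ℂ K K) hF' ()) h1

/-- the monomials are eigenvectors -/
theorem der_prod {F : IntermediateField ℂ K} {u : Fin r → K} {δ : Fin r → Derivation ℂ K K}
    (h : LogCrd F u δ) (i : Fin r) (μ : Fin r →₀ ℕ) (t : Finset (Fin r)) :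
    δ i (∏ j ∈ t, u j ^ μ j) = (if i ∈ t then (μ i : K) else 0) * ∏ j ∈ t, u j ^ μ j := by
  classical
  induction t using Finset.induction_on with
  | empty => simp
  | insert a t ha ih =>
    rw [Finset.prod_insert ha, Derivation.leibniz, ih, Derivation.leibniz_pow, h.dual i a]
    have h1 : (μ a) • (u a) ^ (μ a - 1) • (if i = a then u a else 0) =
        (if i = a then (μ a : K) * u a ^ μ a else 0) := by
      by_cases hia : i = a
      · rw [if_pos hia, if_pos hia]
        rcases Nat.eq_zero_or_pos (μ a) with h0 | h0
        · rw [h0]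
          simp
        · rw [smul_eq_mul, nsmul_eq_mul]
          have : u a ^ (μ a - 1) * u a = u a ^ μ a := by
            rw [← pow_succ, Nat.sub_add_cancel h0]
          rw [this]
      · rw [if_neg hia, if_neg hia, smul_zero, smul_zero]
    rw [h1, smul_eq_mul, smul_eq_mul]
    by_cases hia : i = a
    · subst hia
      rw [if_pos rfl, if_neg ha, if_pos (Finset.mem_insert_self _ _)]
      ring
    · rw [if_neg hia, mul_zero, add_zero]
      by_cases hit : i ∈ t
      · rw [if_pos hit, if_pos (Finset.mem_insert_of_mem hit)]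
        ring
      · rw [if_neg hit, if_neg (fun h' => by
          rcases Finset.mem_insert.1 h' with h'' | h''
          · exact hia h''
          · exact hit h'')]
        ring

theorem lin_ind {F : IntermediateField ℂ K} {u : Fin r → K} {δ : Fin r → Derivation ℂ K K}
    (h : LogCrd F u δ) (s : Finset (Fin r →₀ ℕ)) : ∀ c : (Fin r →₀ ℕ) → K,
    (∀ μ ∈ s, ∀ i, δ i (c μ) = 0) → ∑ μ ∈ s, c μ * ∏ j, u j ^ μ j = 0 → ∀ μ ∈ s, c μ = 0 := by
  classical
  induction s using Finset.induction_on with
  | empty =>
    intro c _ _ μ hμ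
    exact absurd hμ (Finset.notMem_empty _)
  | insert a s ha ih =>
    intro c hc hs
    have hm0 : ∀ μ : Fin r →₀ ℕ, ∏ j, u j ^ μ j ≠ 0 := fun μ =>
      Finset.prod_ne_zero_iff.2 fun j _ => pow_ne_zero _ (h.ne j)
    have hz : ∀ μ ∈ s, c μ = 0 := by
      have h1 : ∀ i, ∀ μ ∈ s, c μ * ((μ i : K) - (a i : K)) = 0 := by
        intro i
        refine ih (fun μ => c μ * ((μ i : K) - (a i : K))) ?_ ?_
        · intro μ hμ j
          rw [Derivation.leibniz, hc μ (Finset.mem_insert_of_mem hμ) j, smul_zero, add_zero,
            map_sub, Derivation.map_natCast, Derivation.map_natCast, sub_zero, smul_zero]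
        · have h2 : δ i (∑ μ ∈ insert a s, c μ * ∏ j, u j ^ μ j) = 0 := by
            rw [hs, map_zero]
          rw [map_sum] at h2
          have h3 : ∀ μ ∈ insert a s, δ i (c μ * ∏ j, u j ^ μ j) =
              (μ i : K) * (c μ * ∏ j, u j ^ μ j) := by
            intro μ hμ
            rw [Derivation.leibniz, hc μ hμ i, smul_zero, add_zero, der_prod h i μ univ,
              if_pos (Finset.mem_univ _), smul_eq_mul]
            ring
          rw [Finset.sum_congr rfl h3] at h2
          have h4 : ∑ μ ∈ insert a s, ((μ i : K) - (a i : K)) * (c μ * ∏ j, u j ^ μ j) = 0 := by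
            simp only [sub_mul, Finset.sum_sub_distrib]
            rw [h2, ← Finset.mul_sum, hs, mul_zero, sub_zero]
          rw [Finset.sum_insert ha, sub_self, zero_mul, zero_add] at h4
          rw [← h4]
          exact Finset.sum_congr rfl fun μ _ => by ring
      intro μ hμ
      by_contra h5
      have h6 : μ = a := by
        ext i
        have h7 := (mul_eq_zero.1 (h1 i μ hμ)).resolve_left h5
        haveI : CharZero K := charZero_of_injective_algebraMap (algebraMap ℂ K).injective
        exact Nat.cast_injective (R := K) (sub_eq_zero.1 h7)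
      rw [h6] at hμ
      exact ha hμ
    intro μ hμ
    rcases Finset.mem_insert.1 hμ with rfl | hμ
    · rw [Finset.sum_insert ha, Finset.sum_eq_zero (fun ν hν => by rw [hz ν hν, zero_mul]),
        add_zero] at hs
      exact (mul_eq_zero.1 hs).resolve_right (hm0 μ)
    · exact hz μ hμ

theorem alg_ind {F : IntermediateField ℂ K} {u : Fin r → K} {δ : Fin r → Derivation ℂ K K}
    (h : LogCrd F u δ) : AlgebraicIndependent (cst F δ h.zero) u := by
  rw [algebraicIndependent_iff]
  intro p hp
  rw [MvPolynomial.aeval_def, MvPolynomial.eval₂_eq'] at hp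
  have h1 := lin_ind h p.support (fun μ => ((p.coeff μ : cst F δ h.zero) : K))
    (fun μ _ i => (p.coeff μ : cst F δ h.zero).2 i) hp
  apply MvPolynomial.ext
  intro μ
  rw [MvPolynomial.coeff_zero]
  by_cases hμ : μ ∈ p.support
  · exact Subtype.ext (h1 μ hμ)
  · exact MvPolynomial.notMem_support_iff.1 hμ

theorem alg_const {F : IntermediateField ℂ K} {u : Fin r → K} {δ : Fin r → Derivation ℂ K K}
    (h : LogCrd F u δ) (f : K) (hf : ∀ i, δ i f = 0) : IsAlgebraic F f := by
  by_contra hcon
  let f' : cst F δ h.zero := ⟨f, hf⟩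
  have h1 : Transcendental F f' := by
    intro h2
    apply hcon
    obtain ⟨p, hp, hpf⟩ := h2
    refine ⟨p, hp, ?_⟩
    have h3 := congrArg (algebraMap (cst F δ h.zero) K) hpf
    rw [map_zero, ← Polynomial.aeval_algebraMap_apply] at h3
    exact h3
  have h2 : AlgebraicIndependent F ![f'] := algebraicIndependent_iff_transcendental.2 h1
  have h3 := AlgebraicIndependent.sumElim_comp (A := K) h2 (alg_ind h)
  have h4 : AlgebraicIndependent F (Sum.elim (algebraMap (cst F δ h.zero) K ∘ ![f']) u) := by
    have h5 := h3.comp (Sum.swap : Fin 1 ⊕ Fin r → Fin r ⊕ Fin 1)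
      (fun a b hab => by
        have := congrArg Sum.swap hab
        simpa using this)
    have h6 : (Sum.elim u (algebraMap (cst F δ h.zero) K ∘ ![f'])) ∘ Sum.swap =
        Sum.elim (algebraMap (cst F δ h.zero) K ∘ ![f']) u := by
      funext x
      rcases x with x | x <;> rfl
    rw [h6] at h5
    exact h5
  have h5 := (AlgebraicIndependent.sumElim_iff.1 h4).2
  have h6 := h5.transcendental 0
  exact h6 (h.alg f)

/-- a place which is trivial on `F`, as a place over `F` -/
def plc {F : IntermediateField ℂ K} (P : Place ℂ K) (hP : Horizontal F P) : Place F K where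
  ord := P.ord
  ord_zero := P.ord_zero
  ord_mul := P.ord_mul
  ord_add := P.ord_add
  ord_const := fun {c} hc => hP c c.2 (fun h => hc (Subtype.ext h))
  surj := P.surj

end COM

/-- **UF-1.** -/
theorem t_COM : S_COM := by
  intro K _ _ F r u δ h
  refine ⟨fun i j f => ?_, fun f hf => COM.alg_const h f hf, fun f hf0 hf P hP => ?_⟩
  · have h1 := COM.der_zero F u h.alg ⁅δ i, δ j⁆ (fun g hg => by
      rw [Derivation.commutator_apply, h.zero i g hg, h.zero j g hg, map_zero, map_zero,
        sub_zero]) (fun k => by
      rw [Derivation.commutator_apply, h.dual j k, h.dual i k]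
      by_cases hjk : j = k
      · by_cases hik : i = k
        · rw [if_pos hjk, if_pos hik, h.dual i k, h.dual j k, if_pos hik, if_pos hjk, sub_self]
        · rw [if_pos hjk, if_neg hik, h.dual i k, if_neg hik, map_zero, sub_zero]
      · by_cases hik : i = k
        · rw [if_neg hjk, if_pos hik, h.dual j k, if_neg hjk, map_zero, sub_zero]
        · rw [if_neg hjk, if_neg hik, map_zero, map_zero, sub_zero]) f
    rw [Derivation.commutator_apply] at h1
    exact sub_eq_zero.1 h1
  · exact (COM.plc P hP).ord_eq_zero_of_isAlgebraic hf0 (COM.alg_const h f hf)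

end Pool.Agent.NH53.UF
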