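import Pool.Agent.NH53.UF.Stm
import Pool.Agent.W619.PQ.Dual

/-!
Project UF, part UF-3: coordinates of `K` which extend the coordinates over `F`.
-/

set_option autoImplicit false

open FF Pool.Agent.W602.GT Pool.Agent.W603.LV Pool.Agent.Y172 Pool.Agent.NH31

namespace Pool.Agent.NH53.UF

namespace CRD

open Polynomial in
/-- A derivation which vanishes on a subalgebra vanishes on the elements algebraic over it. -/
theorem der_alg {F K : Type} [Field F] [Field K] [Algebra ℂ F] [Algebra F K] [Algebra ℂ K]
    [IsScalarTower ℂ F K] (B : Subalgebra ℂ F) (D : Derivation ℂ F K) (hB : ∀ b ∈ B, D b = 0)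
    (f : F) (hf : IsAlgebraic B f) : D f = 0 := by
  classical
  have hch : CharZero F := charZero_of_injective_algebraMap (algebraMap ℂ F).injective
  have htf : IsAddTorsionFree B :=
    Function.Injective.isAddTorsionFree (B.val : B →+ F) Subtype.val_injective
  let L : F →ₗ[B] K :=
    { toFun := D
      map_add' := fun x y => D.map_add x y
      map_smul' := fun b x => by
        show D ((b : F) * x) = (b : F) • D x
        rw [D.leibniz, hB b b.2, smul_zero, add_zero] }
  let D2 : Derivation B F K := Derivation.mk' L (fun a b => D.leibniz a b)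
  have hex : ∃ d : ℕ, ∃ p : B[X], p ≠ 0 ∧ aeval f p = 0 ∧ p.natDegree = d := by
    obtain ⟨p, hp0, hp⟩ := hf
    exact ⟨_, p, hp0, hp, rfl⟩
  obtain ⟨p, hp0, hpf, hpd⟩ := Nat.find_spec hex
  have hmin : ∀ q : B[X], q ≠ 0 → aeval f q = 0 → Nat.find hex ≤ q.natDegree :=
    fun q h1 h2 => Nat.find_min' hex ⟨q, h1, h2, rfl⟩
  have h1 := D2.map_aeval p f
  rw [hpf, map_zero] at h1
  by_cases h' : aeval f (derivative p) = 0
  · exfalso
    by_cases hd0 : derivative p = 0
    · have h2 := derivative_eq_zero.1 hd0
      obtain ⟨c, hc⟩ := natDegree_eq_zero.1 h2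
      rw [← hc, aeval_C] at hpf
      have h3 : c = 0 := Subtype.ext hpf
      exact hp0 (by rw [← hc, h3, C_0])
    · have h2 := hmin _ hd0 h'
      by_cases h3 : p.natDegree = 0
      · obtain ⟨c, hc⟩ := natDegree_eq_zero.1 h3
        exact hd0 (by rw [← hc, derivative_C])
      · have h4 := natDegree_derivative_lt h3
        omega
  · exact (smul_eq_zero.1 h1.symm).resolve_left h'

end CRD

/-- UF-3 -/
theorem t_CRD : S_CRD := by
  intro K _ _ _ F r u hind halg n hn
  classical
  obtain ⟨s, hs⟩ := exists_isTranscendenceBasis ℂ F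
  have hu : IsTranscendenceBasis F u :=
    (hind.isTranscendenceBasis_iff_isAlgebraic).2 ⟨halg⟩
  have hw : IsTranscendenceBasis ℂ (Sum.elim u (algebraMap F K ∘ (Subtype.val : s → F))) :=
    hs.sumElim_comp hu
  have hcard : Cardinal.mk (Fin r ⊕ s) = (n : Cardinal) := by
    rw [hw.cardinalMk_eq_trdeg, hn]
  obtain ⟨e⟩ : Nonempty (Fin n ≃ Fin r ⊕ s) := by
    rw [← Cardinal.eq, hcard, Cardinal.mk_fin]
  have hx : IsTranscendenceBasis ℂ
      (Sum.elim u (algebraMap F K ∘ (Subtype.val : s → F)) ∘ e) := hw.comp_equiv e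
  choose E hE using fun j => Pool.Agent.W619.PQ.exists_dual _ hx j
  have hxi : ∀ i, (Sum.elim u (algebraMap F K ∘ (Subtype.val : s → F)) ∘ e) (e.symm (Sum.inl i)) =
      u i := by
    intro i
    simp
  have hxl : ∀ l, l ∉ Set.range (fun i : Fin r => e.symm (Sum.inl i)) →
      ∃ t : s, e l = Sum.inr t := by
    intro l hl
    rcases h : e l with i | t
    · exact absurd ⟨i, by simp only [← h, Equiv.symm_apply_apply]⟩ hl
    · exact ⟨t, rfl⟩
  refine ⟨_, E, fun i => e.symm (Sum.inl i), ?_, hx, fun i j => ?_, hxi, ?_, ?_⟩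
  · intro i j h
    exact Sum.inl.inj (e.symm.injective h)
  · rw [hE i j]
    by_cases h : i = j
    · rw [if_pos h, if_pos h.symm]
    · rw [if_neg h, if_neg (Ne.symm h)]
  · intro l hl
    obtain ⟨t, ht⟩ := hxl l hl
    simp only [Function.comp_apply, ht, Sum.elim_inr]
    exact (t : F).2
  · refine ⟨fun i => hind.ne_zero i, hind, halg, fun i f hf => ?_, fun i j => ?_⟩
    · have h1 : E (e.symm (Sum.inl i)) f = 0 := by
        have h2 := CRD.der_alg (K := K) (Algebra.adjoin ℂ (Set.range (Subtype.val : s → F)))
          ((E (e.symm (Sum.inl i))).compAlgebraMap F) (by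
            intro b hb
            refine Algebra.adjoin_induction (p := fun b _ =>
              ((E (e.symm (Sum.inl i))).compAlgebraMap F) b = 0) ?_ ?_ ?_ ?_ hb
            · rintro _ ⟨t, rfl⟩
              have h3 := hE (e.symm (Sum.inl i)) (e.symm (Sum.inr t))
              have h4 : e.symm (Sum.inr t) ≠ e.symm (Sum.inl i) := by
                intro h
                exact absurd (e.symm.injective h) (by simp)
              rw [if_neg h4] at h3
              simpa using h3
            · intro c
              exact Derivation.map_algebraMap _ c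
            · intro a b _ _ ha hb
              rw [map_add, ha, hb, add_zero]
            · intro a b _ _ ha hb
              rw [Derivation.leibniz, ha, hb, smul_zero, smul_zero, add_zero])
          ⟨f, hf⟩ (hs.isAlgebraic.isAlgebraic ⟨f, hf⟩)
        exact h2
      show u i • E (e.symm (Sum.inl i)) f = 0
      rw [h1, smul_zero]
    · show u i • E (e.symm (Sum.inl i)) (u j) = _
      have h3 := hE (e.symm (Sum.inl i)) (e.symm (Sum.inl j))
      rw [hxi] at h3
      rw [h3]
      by_cases h : i = j
      · subst h
        simp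
      · have h4 : e.symm (Sum.inl j) ≠ e.symm (Sum.inl i) := by
          intro h'
          exact h (Sum.inl.inj (e.symm.injective h')).symm
        rw [if_neg h4, if_neg h, smul_zero]

end Pool.Agent.NH53.UF
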