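import Pool.Agent.NH53.UF.Stm

/-! UF-2 (helper82): functions which vanish at a place where the coordinates are units. -/

set_option autoImplicit false

open FF Pool.Agent.W602.GT Pool.Agent.W603.LV Pool.Agent.Y172 Pool.Agent.NH31

namespace Pool.Agent.NH53.UF

namespace LAM

variable {K : Type} [Field K] [Algebra ℂ K] {r : ℕ}

/-- the value of a monomial -/
noncomputable def mo (u : Fin r → K) (μ : Fin r →₀ ℕ) : K := ∏ i, u i ^ μ i

/-- the weight of a monomial -/
noncomputable def wg (x : Fin r → ℂ) (μ : Fin r →₀ ℕ) : ℂ := ∑ i, (μ i : ℂ) * x i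

theorem der_pow (D : Derivation ℂ K K) (a : K) (c : ℂ) (h : D a = c • a) (n : ℕ) :
    D (a ^ n) = ((n : ℂ) * c) • a ^ n := by
  induction n with
  | zero => simp
  | succ n ih =>
    rw [pow_succ, D.leibniz, ih, h]
    simp only [smul_eq_mul]
    simp only [Algebra.smul_def, map_mul, map_natCast]
    push_cast
    ring

theorem der_prod (D : Derivation ℂ K K) (u : Fin r → K) (x : Fin r → ℂ)
    (h : ∀ i, D (u i) = x i • u i) (μ : Fin r →₀ ℕ) (T : Finset (Fin r)) :
    D (∏ i ∈ T, u i ^ μ i) = (∑ i ∈ T, (μ i : ℂ) * x i) • ∏ i ∈ T, u i ^ μ i := by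
  classical
  induction T using Finset.induction_on with
  | empty => simp
  | insert a s ha ih =>
    rw [Finset.prod_insert ha, Finset.sum_insert ha, D.leibniz, ih, der_pow D (u a) (x a) (h a)]
    simp only [smul_eq_mul]
    simp only [Algebra.smul_def, map_add, map_mul]
    ring

theorem der_mo (D : Derivation ℂ K K) (u : Fin r → K) (x : Fin r → ℂ)
    (h : ∀ i, D (u i) = x i • u i) (μ : Fin r →₀ ℕ) : D (mo u μ) = wg x μ • mo u μ :=
  der_prod D u x h μ Finset.univ

theorem dl_app (δ : Fin r → Derivation ℂ K K) (x : Fin r → ℂ) (f : K) :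
    dl δ x f = ∑ i, x i • δ i f := by
  unfold dl
  rw [← Derivation.coeFnAddMonoidHom_apply, map_sum, Finset.sum_apply]
  rfl

theorem dl_u {F : IntermediateField ℂ K} {u : Fin r → K} {δ : Fin r → Derivation ℂ K K}
    (h : LogCrd F u δ) (x : Fin r → ℂ) (j : Fin r) : dl δ x (u j) = x j • u j := by
  rw [dl_app, Finset.sum_eq_single j]
  · rw [h.dual, if_pos rfl]
  · intro i _ hij
    rw [h.dual, if_neg hij, smul_zero]
  · intro hj
    exact absurd (Finset.mem_univ j) hj

theorem dl_F {F : IntermediateField ℂ K} {u : Fin r → K} {δ : Fin r → Derivation ℂ K K}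
    (h : LogCrd F u δ) (x : Fin r → ℂ) (f : K) (hf : f ∈ F) : dl δ x f = 0 := by
  rw [dl_app]
  refine Finset.sum_eq_zero fun i _ => ?_
  rw [h.zero i f hf, smul_zero]

theorem mo_ne {F : IntermediateField ℂ K} {u : Fin r → K} {δ : Fin r → Derivation ℂ K K}
    (h : LogCrd F u δ) (μ : Fin r →₀ ℕ) : mo u μ ≠ 0 :=
  Finset.prod_ne_zero_iff.2 fun i _ => pow_ne_zero _ (h.ne i)

theorem ord_pow (P : Place ℂ K) {f : K} (hf : f ≠ 0) (n : ℕ) : P.ord (f ^ n) = n * P.ord f := by
  induction n with
  | zero => simp [P.ord_one]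
  | succ n ih =>
    rw [pow_succ, P.ord_mul (pow_ne_zero _ hf) hf, ih]
    push_cast
    ring

theorem ord_mo {F : IntermediateField ℂ K} {u : Fin r → K} {δ : Fin r → Derivation ℂ K K}
    (h : LogCrd F u δ) (P : Place ℂ K) (hP : Unt u P) (μ : Fin r →₀ ℕ) : P.ord (mo u μ) = 0 := by
  classical
  unfold mo
  have key : ∀ T : Finset (Fin r), P.ord (∏ i ∈ T, u i ^ μ i) = 0 := by
    intro T
    induction T using Finset.induction_on with
    | empty => simp [P.ord_one]
    | insert a s ha ih =>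
      rw [Finset.prod_insert ha, P.ord_mul (pow_ne_zero _ (h.ne a))
        (Finset.prod_ne_zero_iff.2 fun i _ => pow_ne_zero _ (h.ne i)), ih,
        ord_pow P (h.ne a), hP a]
      simp
  exact key Finset.univ

/-- the index of the monomials of a relation -/
abbrev Ix (r : ℕ) : Type := Σ _ : ℕ, (Fin r →₀ ℕ)

/-- a relation with `n` monomials -/
def IsR (F : IntermediateField ℂ K) (u : Fin r → K) (b : K) (n : ℕ) : Prop :=
  ∃ (S : Finset (Ix r)) (c : Ix r → F), S.card = n ∧ (∀ e ∈ S, c e ≠ 0) ∧ (∃ e ∈ S, e.1 = 0) ∧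
    ∑ e ∈ S, (c e : K) * (mo u e.2 * b ^ e.1) = 0

theorem exists_rel {F : IntermediateField ℂ K} {u : Fin r → K} {δ : Fin r → Derivation ℂ K K}
    (h : LogCrd F u δ) {b : K} (hb : b ≠ 0) : ∃ n, IsR F u b n := by
  classical
  obtain ⟨q, hq0, hq⟩ := (h.alg b).exists_nonzero_coeff_and_aeval_eq_zero
    (mem_nonZeroDivisors_of_ne_zero hb)
  let φ : MvPolynomial (Fin r) F ≃ₐ[F] Algebra.adjoin F (Set.range u) := h.ind.aevalEquiv
  have hφ : ∀ a : Algebra.adjoin F (Set.range u), MvPolynomial.aeval u (φ.symm a) = (a : K) := by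
    intro a
    have := h.ind.algebraMap_aevalEquiv (φ.symm a)
    rw [← this]
    change ((φ (φ.symm a) : Algebra.adjoin F (Set.range u)) : K) = a
    rw [AlgEquiv.apply_symm_apply]
  refine ⟨_, q.support.sigma (fun j => (φ.symm (q.coeff j)).support),
    fun e => (φ.symm (q.coeff e.1)).coeff e.2, rfl, ?_, ?_, ?_⟩
  · intro e he
    rw [Finset.mem_sigma] at he
    exact MvPolynomial.mem_support_iff.1 he.2
  · have h1 : φ.symm (q.coeff 0) ≠ 0 := by
      intro h2
      apply hq0
      have := congrArg φ h2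
      rwa [AlgEquiv.apply_symm_apply, map_zero] at this
    obtain ⟨μ, hμ⟩ := Finset.nonempty_iff_ne_empty.2
      (fun h3 => h1 (MvPolynomial.support_eq_empty.1 h3))
    exact ⟨⟨0, μ⟩, Finset.mem_sigma.2 ⟨Polynomial.mem_support_iff.2 hq0, hμ⟩, rfl⟩
  · rw [Finset.sum_sigma]
    rw [Polynomial.aeval_eq_sum_range] at hq
    rw [← hq]
    rw [← Polynomial.sum_over_range' (f := fun j a => a • b ^ j) q (by simp) _ (Nat.lt_succ_self _)]
    rw [Polynomial.sum_def]
    refine Finset.sum_congr rfl fun j _ => ?_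
    rw [Algebra.smul_def]
    have h2 : algebraMap (Algebra.adjoin F (Set.range u)) K (q.coeff j) = ((q.coeff j : _) : K) := rfl
    rw [h2, ← hφ, MvPolynomial.aeval_def, MvPolynomial.eval₂_eq', Finset.sum_mul]
    refine Finset.sum_congr rfl fun μ _ => ?_
    rw [← mul_assoc]
    rfl

theorem main {F : IntermediateField ℂ K} {u : Fin r → K} {δ : Fin r → Derivation ℂ K K}
    (h : LogCrd F u δ) (H : Submodule ℂ (Fin r → ℂ)) (P : Place ℂ K) (hH : Horizontal F P)
    (hU : Unt u P) (b : K) (hb : b ∈ CH δ H) (hpos : 0 < P.ord b) :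
    ∃ l ∈ CH δ H, l ≠ 0 ∧ 0 < P.ord l ∧
      ∀ P' : Place ℂ K, Horizontal F P' → Unt u P' → 0 ≤ P'.ord l := by
  classical
  have hb0 : b ≠ 0 := by
    rintro rfl
    rw [P.ord_zero] at hpos
    exact lt_irrefl _ hpos
  have hex := exists_rel h hb0
  obtain ⟨S, c, hcard, hc, ⟨χ, hχS, hχ0⟩, hrel⟩ := Nat.find_spec hex
  have hmin : ∀ n, n < S.card → ¬ IsR F u b n := fun n hn => Nat.find_min hex (by rwa [hcard] at hn)
  -- the derivation of a term
  have hterm : ∀ x ∈ H, ∀ e : Ix r, dl δ x ((c e : K) * (mo u e.2 * b ^ e.1)) =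
      wg x e.2 • ((c e : K) * (mo u e.2 * b ^ e.1)) := by
    intro x hx e
    rw [Derivation.leibniz, Derivation.leibniz, dl_F h x _ (c e).2,
      der_pow (dl δ x) b 0 (by rw [hb x hx, zero_smul]), der_mo _ u x (dl_u h x)]
    simp only [smul_eq_mul]
    simp only [Algebra.smul_def, mul_zero, map_zero, zero_mul, add_zero, zero_add]
    ring
  -- the weights of the terms with exponent zero agree
  have hwt : ∀ x ∈ H, ∀ e ∈ S, e.1 = 0 → wg x e.2 = wg x χ.2 := by
    intro x hx e he he0
    by_contra hne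
    let c' : Ix r → F := fun e => (wg x e.2 - wg x χ.2) • c e
    have hrel' : ∑ e ∈ S, (c' e : K) * (mo u e.2 * b ^ e.1) = 0 := by
      have h1 : dl δ x (∑ e ∈ S, (c e : K) * (mo u e.2 * b ^ e.1)) = 0 := by
        rw [hrel, map_zero]
      rw [map_sum, Finset.sum_congr rfl fun e _ => hterm x hx e] at h1
      have h2 : wg x χ.2 • ∑ e ∈ S, (c e : K) * (mo u e.2 * b ^ e.1) = 0 := by
        rw [hrel, smul_zero]
      rw [Finset.smul_sum] at h2
      have h3 := sub_eq_zero.2 (h1.trans h2.symm)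
      rw [← Finset.sum_sub_distrib] at h3
      rw [← h3]
      refine Finset.sum_congr rfl fun e _ => ?_
      change (((wg x e.2 - wg x χ.2) • c e : F) : K) * _ = _
      rw [IntermediateField.coe_smul]
      simp only [Algebra.smul_def, map_sub]
      ring
    refine hmin (S.filter fun e => c' e ≠ 0).card ?_
      ⟨S.filter fun e => c' e ≠ 0, c', rfl, fun e he => (Finset.mem_filter.1 he).2, ?_, ?_⟩
    · refine Finset.card_lt_card ⟨Finset.filter_subset _ _, fun hsub => ?_⟩
      have := (Finset.mem_filter.1 (hsub hχS)).2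
      apply this
      change (wg x χ.2 - wg x χ.2) • c χ = 0
      rw [sub_self, zero_smul]
    · exact ⟨e, Finset.mem_filter.2 ⟨he, smul_ne_zero (sub_ne_zero.2 hne) (hc e he)⟩, he0⟩
    · rw [Finset.sum_filter]
      refine Eq.trans (Finset.sum_congr rfl fun e _ => ?_) hrel'
      split_ifs with h5
      · rfl
      · rw [not_not] at h5
        rw [h5]
        simp
  -- the function
  set T := S.filter fun e => e.1 = 0 with hT
  set l0 : K := ∑ e ∈ T, (c e : K) * mo u e.2 with hl0
  have hl0ne : l0 ≠ 0 := by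
    intro h0
    let G : MvPolynomial (Fin r) F := ∑ e ∈ T, MvPolynomial.monomial e.2 (c e)
    have hG : MvPolynomial.aeval u G = l0 := by
      change MvPolynomial.aeval u (∑ e ∈ T, MvPolynomial.monomial e.2 (c e)) = _
      rw [map_sum, hl0]
      refine Finset.sum_congr rfl fun e _ => ?_
      rw [MvPolynomial.aeval_monomial, Finsupp.prod_fintype _ _ (fun i => pow_zero _)]
      rfl
    have hG0 : G = 0 := by
      apply h.ind
      rw [hG, h0, map_zero]
    have hcoef : G.coeff χ.2 = c χ := by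
      change (∑ e ∈ T, MvPolynomial.monomial e.2 (c e)).coeff χ.2 = c χ
      rw [MvPolynomial.coeff_sum, Finset.sum_eq_single χ]
      · rw [MvPolynomial.coeff_monomial, if_pos rfl]
      · intro e he hne
        rw [MvPolynomial.coeff_monomial, if_neg]
        intro h7
        apply hne
        have h8 := (Finset.mem_filter.1 he).2
        obtain ⟨e1, e2⟩ := e
        obtain ⟨χ1, χ2⟩ := χ
        simp only at h7 h8 hχ0
        subst h7 h8 hχ0
        rfl
      · intro h9
        exact absurd (Finset.mem_filter.2 ⟨hχS, hχ0⟩) h9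
    rw [hG0, MvPolynomial.coeff_zero] at hcoef
    exact hc χ hχS hcoef.symm
  have hmχ := mo_ne h χ.2
  refine ⟨l0 * (mo u χ.2)⁻¹, ?_, mul_ne_zero hl0ne (inv_ne_zero hmχ), ?_, ?_⟩
  · intro x hx
    have h1 : dl δ x l0 = wg x χ.2 • l0 := by
      rw [hl0, map_sum, Finset.smul_sum]
      refine Finset.sum_congr rfl fun e he => ?_
      have h2 := hwt x hx e (Finset.mem_filter.1 he).1 (Finset.mem_filter.1 he).2
      rw [Derivation.leibniz, dl_F h x _ (c e).2, der_mo _ u x (dl_u h x), h2]
      simp only [smul_eq_mul]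
      simp only [Algebra.smul_def, mul_zero, add_zero]
      ring
    rw [Derivation.leibniz, Derivation.leibniz_inv, h1, der_mo _ u x (dl_u h x)]
    simp only [smul_eq_mul]
    simp only [Algebra.smul_def]
    field_simp
    ring
  · have h2 : l0 = -∑ e ∈ S.filter (fun e => ¬ e.1 = 0), (c e : K) * (mo u e.2 * b ^ e.1) := by
      rw [eq_neg_iff_add_eq_zero, ← hrel,
        ← Finset.sum_filter_add_sum_filter_not S (fun e => e.1 = 0)]
      congr 1
      rw [hl0]
      refine Finset.sum_congr rfl fun e he => ?_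
      rw [(Finset.mem_filter.1 he).2, pow_zero, mul_one]
    have h3 : Ge P 1 l0 := by
      rw [h2]
      refine Ge.neg (Ge.sum _ _ fun e he => ?_)
      obtain ⟨he1, he2⟩ := Finset.mem_filter.1 he
      right
      have hce : (c e : K) ≠ 0 := by
        intro h0
        exact hc e he1 (by exact_mod_cast h0)
      rw [P.ord_mul hce (mul_ne_zero (mo_ne h _) (pow_ne_zero _ hb0)),
        P.ord_mul (mo_ne h _) (pow_ne_zero _ hb0), ord_mo h P hU, ord_pow P hb0,
        hH _ (c e).2 hce]
      have h4 : (1 : ℤ) ≤ e.1 := by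
        have : 1 ≤ e.1 := Nat.one_le_iff_ne_zero.2 he2
        exact_mod_cast this
      nlinarith
    rw [P.ord_mul hl0ne (inv_ne_zero hmχ), P.ord_inv, ord_mo h P hU]
    have := h3.resolve_left hl0ne
    omega
  · intro P' hH' hU'
    have h3 : Ge P' 0 l0 := by
      refine Ge.sum _ _ fun e he => ?_
      obtain ⟨he1, _⟩ := Finset.mem_filter.1 he
      right
      have hce : (c e : K) ≠ 0 := by
        intro h0
        exact hc e he1 (by exact_mod_cast h0)
      rw [P'.ord_mul hce (mo_ne h _), ord_mo h P' hU', hH' _ (c e).2 hce]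
      simp
    rw [P'.ord_mul hl0ne (inv_ne_zero hmχ), P'.ord_inv, ord_mo h P' hU']
    have := h3.resolve_left hl0ne
    omega

end LAM

theorem t_LAM : S_LAM := by
  intro K _ _ F r u δ h H P hH hU b hb hne
  rcases lt_or_gt_of_ne hne with hlt | hgt
  · refine LAM.main h H P hH hU b⁻¹ ?_ ?_
    · intro x hx
      rw [Derivation.leibniz_inv, hb x hx, smul_zero]
    · rw [P.ord_inv]
      omega
  · exact LAM.main h H P hH hU b hb hgt

end Pool.Agent.NH53.UF
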