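import Pool.Agent.NH53.UF.Stm
import Pool.Agent.Y172.Dim2

/-!
Project UF: regularity of vector fields at almost all prime divisors, and bounds.
-/

set_option autoImplicit false
set_option linter.overlappingInstances false
set_option linter.unusedSectionVars false

open FF Pool.Agent.W602.GT Pool.Agent.W603.LV Pool.Agent.W619.PQ Pool.Agent.Y172 Pool.Agent.NH31

namespace Pool.Agent.NH53.UF

namespace Reg68

section

variable {K : Type} [Field K] [Algebra ℂ K] {N n r : ℕ} {y : Fin (N + 1) → K}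

/-- the derivations are regular at almost all prime divisors -/
theorem reg_finite (hy : NormalModel y) (δ : Fin r → Derivation ℂ K K) :
    {P | IsPrimeDivisor y P ∧ ¬ ∀ i, DerReg P (δ i)}.Finite := by
  classical
  have hden : ∀ i : Fin (N + 1), ∃ h : K, h ≠ 0 ∧ (y i ≠ 0 →
      (h ∈ chart y i ∧ ∀ l, ∀ f ∈ chart y i, h * δ l f ∈ chart y i)) := by
    intro i
    by_cases hi : y i ≠ 0
    · obtain ⟨h, h1, h2, h3⟩ := exists_den_frame hy hi δ
      exact ⟨h, h2, fun _ => ⟨h1, h3⟩⟩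
    · exact ⟨1, one_ne_zero, fun h => absurd h hi⟩
  choose h hh0 hh using hden
  refine (Set.finite_iUnion fun i => finite_ord hy (hh0 i)).subset ?_
  rintro Q ⟨hQ, hne⟩
  by_contra hcon
  apply hne
  obtain ⟨i, hi⟩ := exists_centred hy Q
  have hord : Q.ord (h i) = 0 := by
    by_contra hne'
    exact hcon (Set.mem_iUnion.2 ⟨i, hQ, hne'⟩)
  intro l f hf
  have h1 : DerReg Q (h i • δ l) := derReg_of_chart hQ hi fun f hf => by
    rw [Derivation.smul_apply, smul_eq_mul]
    exact (hh i hi.1).2 l f hf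
  have h2 := h1 f hf
  rw [Derivation.smul_apply, smul_eq_mul] at h2
  by_cases h3 : δ l f = 0
  · rw [h3]
    exact Q.reg_zero
  · rw [Q.reg_iff (mul_ne_zero (hh0 i) h3), Q.ord_mul (hh0 i) h3, hord, zero_add] at h2
    exact Or.inr h2

/-- the order drops by a bounded amount -/
theorem bound (hy : NormalModel y) (hn : Algebra.trdeg ℂ K = n) (δ : Fin r → Derivation ℂ K K)
    {P : Place ℂ K} (hP : IsPrimeDivisor y P) :
    ∃ c : ℕ, ∀ (i : Fin r) (f : K), f ≠ 0 → Ge P (P.ord f - c) (δ i f) := by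
  classical
  have hess := hy.ess
  obtain ⟨x, G, i0, hl⟩ := exists_loc hn (hP.divisorial hy hn)
  refine ⟨1 + ∑ i, ∑ j, (P.ord (δ i (x j))).natAbs, fun i f _ => ?_⟩
  have h1 : δ i = ∑ j, δ i (x j) • G j :=
    (Pool.Agent.W73.PG.PULL.expand x hl.bas G hl.dual (δ i)).symm
  have h2 : δ i f = ∑ j, δ i (x j) * G j f := by
    conv_lhs => rw [h1]
    rw [sum_smul_apply]
  rw [h2]
  refine Ge.sum _ _ fun j _ => ?_
  have h3 := (ge_ord P (δ i (x j))).mul (ge_der_reg (hl.pres j) f)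
  refine h3.mono ?_
  have h4 : (P.ord (δ i (x j))).natAbs ≤ ∑ i, ∑ j, (P.ord (δ i (x j))).natAbs :=
    (Finset.single_le_sum (f := fun j => (P.ord (δ i (x j))).natAbs)
      (fun _ _ => Nat.zero_le _) (Finset.mem_univ j)).trans
      (Finset.single_le_sum (f := fun i => ∑ j, (P.ord (δ i (x j))).natAbs)
        (fun _ _ => Nat.zero_le _) (Finset.mem_univ i))
  push_cast
  have h5 : ((P.ord (δ i (x j))).natAbs : ℤ) ≤
      ((∑ i, ∑ j, (P.ord (δ i (x j))).natAbs : ℕ) : ℤ) := by exact_mod_cast h4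
  push_cast at h5
  have h6 : -|P.ord (δ i (x j))| ≤ P.ord (δ i (x j)) := neg_abs_le _
  linarith

end

end Reg68

theorem t_REG : S_REG := fun _ _ _ _ _ _ hy hn _ δ =>
  ⟨Reg68.reg_finite hy δ, fun _ hP => Reg68.bound hy hn δ hP⟩

end Pool.Agent.NH53.UF
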