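import Pool.Agent.NH53.UF.Grow
import Pool.Agent.NH53.UF.COM
import Pool.Agent.NH53.UF.LAM
import Pool.Agent.NH53.UF.CRD
import Pool.Agent.NH53.UF.REG
import Pool.Agent.NH53.UF.ABS
import Pool.Agent.NH31.M8

/-!
Project UF: abundance for pairs with independent units on the generic fibre.
-/

set_option autoImplicit false
set_option linter.unusedSectionVars false
set_option linter.overlappingInstances false

open FF Pool.Agent.W602.GT Pool.Agent.W603.LV Pool.Agent.Y172 Pool.Agent.NH31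
open Module Pool.Agent.NH53.UF.ENG

namespace Pool.Agent.NH53.UF

variable {K : Type} [Field K] [Algebra ℂ K] {N n r : ℕ} {y : Fin (N + 1) → K}
  {F : IntermediateField ℂ K} {u : Fin r → K}

/-- the hypothesis on the boundary: at the horizontal prime divisors where some `u i` has a zero or a
pole, the coefficient is at least one -/
def Bdry (y : Fin (N + 1) → K) (F : IntermediateField ℂ K) (u : Fin r → K)
    (B : Place ℂ K → ℚ) : Prop :=
  ∀ P, IsPrimeDivisor y P → Horizontal F P → (∃ i, P.ord (u i) ≠ 0) → 1 ≤ B P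

/-- the data of the frame -/
structure Dat (y : Fin (N + 1) → K) (n : ℕ) (F : IntermediateField ℂ K) (u : Fin r → K)
    (B : Place ℂ K → ℚ) (x : Fin n → K) (E : Fin n → Derivation ℂ K K)
    (δ : Fin r → Derivation ℂ K K) (w : Place ℂ K → ℚ) : Prop where
  bas : IsTranscendenceBasis ℂ x
  dual : ∀ i j, E i (x j) = if i = j then 1 else 0
  crd : LogCrd F u δ
  wfin : FinSup y w
  can : ∀ Q, IsPrimeDivisor y Q → ∀ (m : ℕ) (ω : (Fin n → Derivation ℂ K K) → K) (c : ℚ),
    IsPluri m ω → (OrdGe Q ω c ↔ (ω E = 0 ∨ c - m * w Q ≤ Q.ord (ω E)))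
  typ : ∀ P, IsPrimeDivisor y P → Horizontal F P → ∃ a : ℤ,
    w P = a - 1 + ∑ i, (P.ord (u i) : ℚ) ∧ 0 ≤ a ∧ (Unt u P → 1 ≤ a) ∧
    (a = 0 → LogType u δ P) ∧ (a = 1 → Unt u P → EtType u δ P)

theorem exists_dat (hTYP : S_TYP) (hy : NormalModel y) (hn : Algebra.trdeg ℂ K = n)
    (hu : AlgebraicIndependent F u)
    (halg : ∀ f : K, IsAlgebraic (Algebra.adjoin F (Set.range u)) f) (B : Place ℂ K → ℚ) :
    ∃ (x : Fin n → K) (E : Fin n → Derivation ℂ K K) (δ : Fin r → Derivation ℂ K K)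
      (w : Place ℂ K → ℚ), Dat y n F u B x E δ w := by
  have hess := hy.ess
  obtain ⟨x, E, ι, hι, hx, hE, hxu, hxF, hc⟩ := t_CRD K F r u hu halg n hn
  obtain ⟨w, hw, hwf⟩ := exists_canon hy hn hx hE
  refine ⟨x, E, fun i => u i • E (ι i), w, hx, hE, hc, hw, hwf, fun P hP hPF => ?_⟩
  exact hTYP K F r u n hn x E ι hι hx hE hxu hxF hc P (hP.divisorial hy hn) hPF (w P)
    (fun m ω c hω => hwf P hP m ω c hω)

variable {x : Fin n → K} {E : Fin n → Derivation ℂ K K} {δ : Fin r → Derivation ℂ K K}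
  {w B V : Place ℂ K → ℚ}

/-- the sum of the orders of the coordinates -/
def so (u : Fin r → K) (P : Place ℂ K) : ℚ := ∑ i, (P.ord (u i) : ℚ)

theorem Dat.up_ne (h : Dat y n F u B x E δ w) : (∏ i, u i) ≠ 0 :=
  Finset.prod_ne_zero_iff.2 fun i _ => h.crd.ne i

theorem Dat.up_ord (h : Dat y n F u B x E δ w) (P : Place ℂ K) :
    (P.ord (∏ i, u i) : ℚ) = so u P := by
  classical
  have key : ∀ s : Finset (Fin r), (P.ord (∏ i ∈ s, u i) : ℚ) = ∑ i ∈ s, (P.ord (u i) : ℚ) := by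
    intro s
    induction s using Finset.induction_on with
    | empty => rw [Finset.prod_empty, Finset.sum_empty, P.ord_one, Int.cast_zero]
    | insert a s ha ih =>
      rw [Finset.prod_insert ha, Finset.sum_insert ha, P.ord_mul (h.crd.ne a)
        (Finset.prod_ne_zero_iff.2 fun i _ => h.crd.ne i)]
      push_cast
      rw [ih]
  exact key _

/-- the divisor of `K + V` -/
def dv (u : Fin r → K) (w V : Place ℂ K → ℚ) (P : Place ℂ K) : ℚ := w P + V P - so u P

theorem Dat.shift (h : Dat y n F u B x E δ w) (m : ℕ) (A : Place ℂ K → ℚ) (f : K) :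
    Fn y (m • (w + V) + A) f ↔ Fn y (m • dv u w V + A) ((∏ i, u i) ^ m * f) := by
  unfold Fn
  refine forall₂_congr fun P _ => ?_
  by_cases hf : f = 0
  · simp [hf]
  · have h1 : (∏ i, u i) ^ m * f ≠ 0 := mul_ne_zero (pow_ne_zero _ h.up_ne) hf
    simp only [hf, h1, false_or]
    rw [P.ord_mul (pow_ne_zero _ h.up_ne) hf, P.ord_pow, Pi.add_apply, Pi.add_apply, smul_ap,
      smul_ap, dv, Pi.add_apply]
    push_cast
    rw [h.up_ord]
    constructor <;> intro h2 <;> linarith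

theorem Dat.shift0 (h : Dat y n F u B x E δ w) (m : ℕ) (f : K) :
    Fn y (m • (w + V)) f ↔ Fn y (m • dv u w V) ((∏ i, u i) ^ m * f) := by
  have h1 := h.shift (V := V) m 0 f
  rwa [add_zero, add_zero] at h1

theorem Dat.finU (h : Dat y n F u B x E δ w) (hy : NormalModel y) (hV : FinSup y V) :
    FinSup y (dv u w V) := by
  refine ((h.wfin.union hV).union (finite_ord hy h.up_ne)).subset ?_
  rintro P ⟨hP, hne⟩
  by_contra hcon
  rw [Set.mem_union, Set.mem_union] at hcon
  push Not at hcon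
  have h1 : w P = 0 := by
    by_contra h3
    exact hcon.1.1 ⟨hP, h3⟩
  have h2 : V P = 0 := by
    by_contra h3
    exact hcon.1.2 ⟨hP, h3⟩
  have h3 : P.ord (∏ i, u i) = 0 := by
    by_contra h3
    exact hcon.2 ⟨hP, h3⟩
  apply hne
  rw [dv, h1, h2, ← h.up_ord, h3]
  simp

theorem Dat.nonneg (h : Dat y n F u B x E δ w) (hB0 : ∀ P, IsPrimeDivisor y P → 0 ≤ B P)
    (hb : Bdry y F u B) (hBV : ∀ P, IsPrimeDivisor y P → B P ≤ V P) {P : Place ℂ K}
    (hP : IsPrimeDivisor y P) (hPF : Horizontal F P) : 0 ≤ dv u w V P := by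
  obtain ⟨a, ha, ha0, hau, -, -⟩ := h.typ P hP hPF
  have h1 := hBV P hP
  have h2 := hB0 P hP
  have h3 : dv u w V P = a - 1 + V P := by
    rw [dv, ha, so]
    ring
  rw [h3]
  by_cases hu : Unt u P
  · have h4 : (1 : ℚ) ≤ a := by exact_mod_cast hau hu
    linarith
  · have h4 : ∃ i, P.ord (u i) ≠ 0 := by
      by_contra h5
      push Not at h5
      exact hu h5
    have h5 := hb P hP hPF h4
    have h6 : (0 : ℚ) ≤ a := by exact_mod_cast ha0
    linarith

theorem Dat.eng (h : Dat y n F u B x E δ w) (hy : NormalModel y) (hn : Algebra.trdeg ℂ K = n)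
    (hB0 : ∀ P, IsPrimeDivisor y P → 0 ≤ B P)
    (hb : Bdry y F u B) (hV : FinSup y V) (hBV : ∀ P, IsPrimeDivisor y P → B P ≤ V P) :
    Eng (Pr y) F u δ (dv u w V) where
  com := (t_COM K F r u δ h.crd).1
  lam := t_LAM K F r u δ h.crd
  finD := h.finU hy hV
  typ := by
    intro P hP hPF hD
    obtain ⟨a, ha, ha0, hau, hal, hae⟩ := h.typ P hP hPF
    have h1 := hBV P hP
    have h2 := hB0 P hP
    have h3 : (a : ℚ) - 1 + V P = 0 := by
      rw [← hD, dv, ha, so]
      ring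
    by_cases hu : Unt u P
    · right
      have h4 : (1 : ℚ) ≤ a := by exact_mod_cast hau hu
      have h5 : (a : ℚ) = 1 := by linarith
      exact hae (by exact_mod_cast h5) hu
    · left
      have h4 : ∃ i, P.ord (u i) ≠ 0 := by
        by_contra h5
        push Not at h5
        exact hu h5
      have h5 := hb P hP hPF h4
      have h6 : (0 : ℚ) ≤ a := by exact_mod_cast ha0
      have h7 : (a : ℚ) = 0 := by linarith
      exact hal (by exact_mod_cast h7)
  ford := fun f hf => finite_ord hy hf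
  freg := (t_REG K N n y hy hn r δ).1
  bdd := (t_REG K N n y hy hn r δ).2
  ffin := fun A hA => fn_finite hy hn hA

/-- **Abundance for pairs with independent units on the generic fibre.** -/
theorem abund_units (hTYP : S_TYP) (hy : NormalModel y) (hn : Algebra.trdeg ℂ K = n)
    (hu : AlgebraicIndependent F u)
    (halg : ∀ f : K, IsAlgebraic (Algebra.adjoin F (Set.range u)) f)
    (hB0 : ∀ P, IsPrimeDivisor y P → 0 ≤ B P) (hb : Bdry y F u B) (hF : BelowIitaka y n B F)
    (hV : FinSup y V) (hBV : ∀ P, IsPrimeDivisor y P → B P ≤ V P)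
    {a : ℕ} (ha : 1 ≤ a) {σ : (Fin n → Derivation ℂ K K) → K} (hσ : IsSection y n a (a • B) σ)
    (hσ0 : σ ≠ 0) : Abund y n V := by
  classical
  obtain ⟨x, E, δ, w, h⟩ := exists_dat hTYP hy hn hu halg B
  have hx := h.bas
  have hE := h.dual
  have hfr := frame_of_dual hx hE
  -- sections and functions
  have hsec : ∀ (m : ℕ) (D : Place ℂ K → ℚ) (ω : (Fin n → Derivation ℂ K K) → K),
      IsPluri m ω → (IsSection y n m D ω ↔ Fn y (m • w + D) (ω E)) := by
    intro m D ω hω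
    constructor
    · rintro ⟨-, h1⟩ P hP
      have h2 := (h.can P hP m ω _ hω).1 (h1 P hP)
      refine h2.imp_right fun h2 => le_trans (le_of_eq ?_) h2
      simp only [Pi.add_apply, smul_ap]
      ring
    · intro h1
      refine ⟨hω, fun P hP => (h.can P hP m ω _ hω).2 ?_⟩
      refine (h1 P hP).imp_right fun h2 => le_trans (le_of_eq ?_) h2
      simp only [Pi.add_apply, smul_ap]
      ring
  have hσE : σ E ≠ 0 := fun h => hσ0 (pluri_zero hfr hσ.1 h)
  have h1 : Fn y (a • (w + B)) (σ E) := by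
    rw [smul_add]
    exact (hsec a _ σ hσ.1).1 hσ
  have hrat : pluriRatios y n B ⊆ rat y (dv u w B) := by
    rintro f ⟨m, hm, ω, ω', hω, hω', E1, hE1, rfl⟩
    have e1 := pluri_coord hx hE hω.1 E1
    have e2 := pluri_coord hx hE hω'.1 E1
    have hd : (Matrix.of fun i j => E1 i (x j)).det ^ m ≠ 0 := by
      intro h
      rw [h, zero_mul] at e2
      exact hE1 e2
    have h0 : ω' E ≠ 0 := by
      intro h
      rw [h, mul_zero] at e2
      exact hE1 e2
    have h2 : Fn y (m • (w + B)) (ω E) := by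
      rw [smul_add]
      exact (hsec m _ ω hω.1).1 hω
    have h3 : Fn y (m • (w + B)) (ω' E) := by
      rw [smul_add]
      exact (hsec m _ ω' hω'.1).1 hω'
    refine ⟨m, (∏ i, u i) ^ m * ω E, (∏ i, u i) ^ m * ω' E, hm, (h.shift0 m _).1 h2,
      (h.shift0 m _).1 h3, mul_ne_zero (pow_ne_zero _ h.up_ne) h0, ?_⟩
    rw [e1, e2, mul_div_mul_left _ _ hd, mul_div_mul_left _ _ (pow_ne_zero _ h.up_ne)]
  have hF' : ∀ x ∈ F, IsAlgebraic (IntermediateField.adjoin ℂ (rat y (dv u w B))) x :=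
    fun x hx => isAlg_mono (IntermediateField.adjoin.mono ℂ _ _ hrat) (hF x hx)
  obtain ⟨κ, m0, g, hm0, hg, hg0, hind, hup⟩ := unit_growth t_ABS hy hn
    (h.eng hy hn hB0 hb hV hBV) (D0 := dv u w B)
    (fun P hP => by
      rw [dv, dv]
      linarith [hBV P hP]) ha ((h.shift0 a _).1 h1)
    (mul_ne_zero (pow_ne_zero _ h.up_ne) hσE) hF'
    (fun P hP hPF => h.nonneg hB0 hb hBV hP hPF)
  obtain ⟨π, hπ⟩ : ∃ π, π = ∏ i, u i := ⟨_, rfl⟩
  have hπ0 : π ≠ 0 := hπ ▸ h.up_ne
  have hback : ∀ (m : ℕ) (f : K), Fn y (m • dv u w V) f → Fn y (m • (w + V)) ((π ^ m)⁻¹ * f) := by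
    intro m f hf
    rw [h.shift0, ← hπ, mul_inv_cancel_left₀ (pow_ne_zero _ hπ0)]
    exact hf
  refine ⟨κ, m0, fun j => frm x m0 ((π ^ m0)⁻¹ * g j), hm0, fun j => ?_, ⟨E, ?_, ?_⟩, ?_⟩
  · rw [hsec m0 _ _ (frm_pluri x m0 _), frm_eval hE, ← smul_add]
    exact hback _ _ (hg j)
  · change frm x m0 ((π ^ m0)⁻¹ * g 0) E ≠ 0
    rw [frm_eval hE]
    exact mul_ne_zero (inv_ne_zero (pow_ne_zero _ hπ0)) hg0
  · simp only [frm_eval hE]
    have e1 : (fun i : Fin κ => (π ^ m0)⁻¹ * g i.succ / ((π ^ m0)⁻¹ * g 0)) =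
        fun i : Fin κ => g i.succ / g 0 := by
      funext i
      rw [mul_div_mul_left _ _ (inv_ne_zero (pow_ne_zero _ hπ0))]
    rw [e1]
    exact hind
  · intro x' E' hx' hE' A hA
    obtain ⟨C, hC⟩ := hup A hA
    refine ⟨C, fun m hm s f hf h2 => hC m hm s (fun i => π ^ m *
      (((Matrix.of fun i j => E' i (x j)).det ^ m)⁻¹ * f i)) ?_ fun i => ?_⟩
    · have hd := det_ne hx' hE' hE
      have h3 := hf.map' (LinearMap.mulLeft ℂ
        ((Matrix.of fun i j => E' i (x j)).det ^ m)⁻¹) (LinearMap.ker_eq_bot.2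
        (mul_right_injective₀ (inv_ne_zero (pow_ne_zero _ hd))))
      exact h3.map' (LinearMap.mulLeft ℂ (π ^ m)) (LinearMap.ker_eq_bot.2
        (mul_right_injective₀ (pow_ne_zero _ hπ0)))
    · have hd := det_ne hx' hE' hE
      obtain ⟨ω, hω, hωf⟩ := h2 i
      have h4 := (hsec m _ ω hω.1).1 hω
      have h3 : ω E' = (Matrix.of fun i j => E' i (x j)).det ^ m * ω E :=
        pluri_coord hx hE hω.1 E'
      have h5 : ((Matrix.of fun i j => E' i (x j)).det ^ m)⁻¹ * f i = ω E := by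
        rw [← hωf, h3, inv_mul_cancel_left₀ (pow_ne_zero _ hd)]
      rw [h5, hπ, ← h.shift, smul_add, add_assoc]
      exact h4

/-- sections -/
theorem exists_sec (hTYP : S_TYP) (hy : NormalModel y) (hn : Algebra.trdeg ℂ K = n)
    (hu : AlgebraicIndependent F u)
    (halg : ∀ f : K, IsAlgebraic (Algebra.adjoin F (Set.range u)) f)
    (hB0 : ∀ P, IsPrimeDivisor y P → 0 ≤ B P) (hb : Bdry y F u B) (hF : BelowIitaka y n B F) :
    ∃ a : ℕ, 1 ≤ a ∧ ∃ σ, IsSection y n a (a • B) σ ∧ σ ≠ 0 := by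
  classical
  by_contra hcon
  push Not at hcon
  have hemp : pluriRatios y n B = ∅ := by
    rw [Set.eq_empty_iff_forall_notMem]
    rintro f ⟨m, hm, ω, ω', hω, hω', E1, hE1, rfl⟩
    exact hE1 (by rw [hcon m hm ω' hω']; rfl)
  have hhor : ∀ P : Place ℂ K, Horizontal F P := by
    intro P f hf hf0
    have h1 := hF f hf
    rw [hemp, IntermediateField.adjoin_empty] at h1
    have h2 : IsAlgebraic ℂ f := by
      have h3 : Algebra.IsAlgebraic ℂ (⊥ : IntermediateField ℂ K) := inferInstance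
      exact h1.restrictScalars ℂ
    obtain ⟨c, rfl⟩ : ∃ c : ℂ, algebraMap ℂ K c = f := by
      have h4 := IsAlgClosed.degree_eq_one_of_irreducible ℂ (minpoly.irreducible h2.isIntegral)
      exact minpoly.mem_range_of_degree_eq_one ℂ f h4
    exact P.ord_const (by
      rintro rfl
      exact hf0 (map_zero _))
  obtain ⟨x, E, δ, w, h⟩ := exists_dat hTYP hy hn hu halg B
  have hp := frm_pluri x 1 (∏ i, u i)⁻¹
  have he : frm x 1 (∏ i, u i)⁻¹ E = (∏ i, u i)⁻¹ := frm_eval h.dual 1 _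
  have h1 : IsSection y n 1 (1 • B) (frm x 1 (∏ i, u i)⁻¹) := by
    refine ⟨hp, fun P hP => (h.can P hP 1 _ _ hp).2 (Or.inr ?_)⟩
    have h2 := h.nonneg hB0 hb (V := B) (fun _ _ => le_rfl) hP (hhor P)
    rw [he, P.ord_inv, smul_ap]
    rw [dv] at h2
    push_cast
    rw [h.up_ord]
    linarith
  have h2 := hcon 1 le_rfl _ h1
  rw [h2] at he
  exact inv_ne_zero h.up_ne he.symm

end Pool.Agent.NH53.UF
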