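import Pool.Agent.NH53.UF.Stm

/-!
Project UF: the spaces of functions with bounded poles are controlled by differential operators.
-/

set_option autoImplicit false
set_option linter.unusedSectionVars false

open FF Pool.Agent.W602.GT Pool.Agent.W603.LV Pool.Agent.Y172 Pool.Agent.NH31
open Module

namespace Pool.Agent.NH53.UF.ENG

variable {K : Type} [Field K] [Algebra ℂ K] {r : ℕ} {S : Set (Place ℂ K)}
  {F : IntermediateField ℂ K} {u : Fin r → K} {δ : Fin r → Derivation ℂ K K}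
  {D : Place ℂ K → ℚ}

/-! ### spaces of functions -/

theorem fns_iff {A : Place ℂ K → ℚ} {g : K} : FnS S A g ↔ ∀ P ∈ S, Ge P ⌈-(A P)⌉ g := by
  unfold FnS Ge
  simp only [Int.ceil_le]

theorem fns_mono {A A' : Place ℂ K → ℚ} {g : K} (h : FnS S A g) (hA : ∀ P ∈ S, A P ≤ A' P) :
    FnS S A' g := fun P hP => (h P hP).imp_right fun h1 => (neg_le_neg (hA P hP)).trans h1

/-- the space of functions -/
def fnSubS (S : Set (Place ℂ K)) (A : Place ℂ K → ℚ) : Submodule ℂ K where
  carrier := {g | FnS S A g}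
  zero_mem' := fun _ _ => Or.inl rfl
  add_mem' := by
    intro f g hf hg
    rw [Set.mem_ofPred_eq, fns_iff] at *
    exact fun P hP => (hf P hP).add (hg P hP)
  smul_mem' := by
    intro c f hf
    rw [Set.mem_ofPred_eq, fns_iff] at *
    intro P hP
    rw [Algebra.smul_def]
    have h1 := (Ge.const (P := P) c).mul (hf P hP)
    rwa [zero_add] at h1

theorem mem_fns {A : Place ℂ K → ℚ} {g : K} : g ∈ fnSubS S A ↔ FnS S A g := Iff.rfl

theorem sub_mono {A A' : Place ℂ K → ℚ} (hA : ∀ P ∈ S, A P ≤ A' P) :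
    fnSubS S A ≤ fnSubS S A' := fun _ hf => fns_mono hf hA

theorem smul_ap' (m : ℕ) (U : Place ℂ K → ℚ) (P : Place ℂ K) : (m • U) P = m * U P := by
  rw [Pi.smul_apply, nsmul_eq_mul]

/-! ### the vector fields -/

theorem dl_apply (x : Fin r → ℂ) (f : K) : dl δ x f = ∑ i, x i • δ i f := by
  classical
  have h : ∀ s : Finset (Fin r), (∑ i ∈ s, x i • δ i) f = ∑ i ∈ s, x i • δ i f := by
    intro s
    induction s using Finset.induction_on with
    | empty => rfl
    | insert a s ha ih =>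
      rw [Finset.sum_insert ha, Finset.sum_insert ha, Derivation.add_apply, ih,
        Derivation.smul_apply]
  exact h Finset.univ

theorem dl_add (x x' : Fin r → ℂ) (f : K) : dl δ (x + x') f = dl δ x f + dl δ x' f := by
  rw [dl_apply, dl_apply, dl_apply, ← Finset.sum_add_distrib]
  exact Finset.sum_congr rfl fun i _ => by rw [Pi.add_apply, add_smul]

theorem dl_smul (c : ℂ) (x : Fin r → ℂ) (f : K) : dl δ (c • x) f = c • dl δ x f := by
  rw [dl_apply, dl_apply, Finset.smul_sum]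
  exact Finset.sum_congr rfl fun i _ => by rw [Pi.smul_apply, smul_eq_mul, mul_smul]

theorem dl_comm (hc : ∀ i j f, δ i (δ j f) = δ j (δ i f)) (x x' : Fin r → ℂ) (f : K) :
    dl δ x (dl δ x' f) = dl δ x' (dl δ x f) := by
  rw [dl_apply x', dl_apply x, dl_apply x', dl_apply x f]
  simp only [map_sum, Derivation.map_smul, Finset.smul_sum]
  rw [Finset.sum_comm]
  refine Finset.sum_congr rfl fun i _ => Finset.sum_congr rfl fun j _ => ?_
  rw [hc, smul_comm]

/-- the constants -/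
def CHs (δ : Fin r → Derivation ℂ K K) (H : Submodule ℂ (Fin r → ℂ)) : Submodule ℂ K where
  carrier := CH δ H
  zero_mem' := fun x _ => map_zero _
  add_mem' := by
    intro f g hf hg x hx
    rw [map_add, hf x hx, hg x hx, add_zero]
  smul_mem' := by
    intro c f hf x hx
    rw [Derivation.map_smul, hf x hx, smul_zero]

theorem mem_CHs {H : Submodule ℂ (Fin r → ℂ)} {f : K} : f ∈ CHs δ H ↔ f ∈ CH δ H := Iff.rfl

theorem CH_mul {H : Submodule ℂ (Fin r → ℂ)} {f g : K} (hf : f ∈ CH δ H) (hg : g ∈ CH δ H) :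
    f * g ∈ CH δ H := by
  intro x hx
  rw [Derivation.leibniz, hf x hx, hg x hx, smul_zero, smul_zero, add_zero]

theorem CH_pow {H : Submodule ℂ (Fin r → ℂ)} {f : K} (hf : f ∈ CH δ H) (t : ℕ) :
    f ^ t ∈ CH δ H := by
  intro x hx
  rw [Derivation.leibniz_pow, hf x hx, smul_zero, smul_zero]

theorem CH_prod {H : Submodule ℂ (Fin r → ℂ)} {ι : Type} (s : Finset ι) {f : ι → K}
    (hf : ∀ i ∈ s, f i ∈ CH δ H) : ∏ i ∈ s, f i ∈ CH δ H := by
  classical
  induction s using Finset.induction_on with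
  | empty =>
    intro x _
    rw [Finset.prod_empty, Derivation.map_one_eq_zero]
  | insert a s ha ih =>
    rw [Finset.prod_insert ha]
    exact CH_mul (hf a (Finset.mem_insert_self _ _))
      (ih fun i hi => hf i (Finset.mem_insert_of_mem hi))

/-- the operator -/
noncomputable def opr (δ : Fin r → Derivation ℂ K K) (x : Fin r → ℂ) (c : ℂ) : K →ₗ[ℂ] K :=
  (dl δ x : K →ₗ[ℂ] K) + c • LinearMap.id

theorem opr_apply (x : Fin r → ℂ) (c : ℂ) (f : K) : opr δ x c f = dl δ x f + c • f := rfl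

theorem opr_CH (hc : ∀ i j f, δ i (δ j f) = δ j (δ i f)) {H : Submodule ℂ (Fin r → ℂ)}
    (x : Fin r → ℂ) (c : ℂ) {f : K} (hf : f ∈ CH δ H) : opr δ x c f ∈ CH δ H := by
  intro x' hx'
  rw [opr_apply, map_add, Derivation.map_smul, dl_comm hc, hf x' hx', map_zero, smul_zero,
    add_zero]

theorem ge_smul {P : Place ℂ K} {c : ℤ} (a : ℂ) {f : K} (h : Ge P c f) : Ge P c (a • f) := by
  rw [Algebra.smul_def]
  have h1 := (Ge.const (P := P) a).mul h
  rwa [zero_add] at h1

theorem ge_opr {P : Place ℂ K} {c : ℤ} {x : Fin r → ℂ} {a : ℂ} {f : K} (h : Ge P c f)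
    (hδ : ∀ i, Ge P c (δ i f)) : Ge P c (opr δ x a f) := by
  rw [opr_apply, dl_apply]
  exact (Ge.sum _ _ fun i _ => ge_smul _ (hδ i)).add (ge_smul a h)

theorem ge_self {P : Place ℂ K} (f : K) : Ge P (P.ord f) f := Or.inr le_rfl

theorem ge_log {P : Place ℂ K} (h : ∀ i, DerLog P (δ i)) {f : K} (hf : f ≠ 0) (i : Fin r) :
    Ge P (P.ord f) (δ i f) := by
  have h1 : Ge P 0 (δ i f / f) := h i f
  have h2 := h1.mul (ge_self f)
  rwa [div_mul_cancel₀ _ hf, zero_add] at h2

theorem log_not_unt {P : Place ℂ K} (h : LogType u δ P) : ¬ Unt u P := by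
  intro hu
  obtain ⟨t, ht0, ht⟩ := P.surj
  have h1 := h.2 t ht0
  have h2 : dl δ (rho u P) t = 0 := by
    rw [dl_apply]
    refine Finset.sum_eq_zero fun i _ => ?_
    rw [rho, hu i, Int.cast_zero, zero_smul]
  rw [h2, zero_div, ht, zero_sub, Int.cast_one] at h1
  rcases h1 with h1 | h1
  · exact neg_ne_zero.2 one_ne_zero h1
  · rw [P.ord_neg_one] at h1
    omega

/-! ### the setting -/

/-- the hypotheses -/
structure Eng (S : Set (Place ℂ K)) (F : IntermediateField ℂ K) (u : Fin r → K)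
    (δ : Fin r → Derivation ℂ K K) (D : Place ℂ K → ℚ) : Prop where
  com : ∀ i j f, δ i (δ j f) = δ j (δ i f)
  lam : ∀ (H : Submodule ℂ (Fin r → ℂ)) (P : Place ℂ K), Horizontal F P → Unt u P →
    ∀ b ∈ CH δ H, P.ord b ≠ 0 → ∃ l ∈ CH δ H, l ≠ 0 ∧ 0 < P.ord l ∧
      ∀ P' : Place ℂ K, Horizontal F P' → Unt u P' → 0 ≤ P'.ord l
  finD : FinS S D
  typ : ∀ P ∈ S, Horizontal F P → D P = 0 → LogType u δ P ∨ EtType u δ P
  ford : ∀ f : K, f ≠ 0 → {P | P ∈ S ∧ P.ord f ≠ 0}.Finite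
  freg : {P | P ∈ S ∧ ¬ ∀ i, DerReg P (δ i)}.Finite
  bdd : ∀ P ∈ S, ∃ c : ℕ, ∀ (i : Fin r) (f : K), f ≠ 0 → Ge P (P.ord f - c) (δ i f)
  ffin : ∀ A, FinS S A → Module.Finite ℂ (fnSubS S A)

/-- the divisors which can be absorbed -/
def Good (S : Set (Place ℂ K)) (F : IntermediateField ℂ K) (D G : Place ℂ K → ℚ) : Prop :=
  FinS S G ∧ ∀ P ∈ S, Horizontal F P → D P = 0 → G P ≤ 0

/-- the bound -/
def Bd (S : Set (Place ℂ K)) (F : IntermediateField ℂ K) (δ : Fin r → Derivation ℂ K K)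
    (D : Place ℂ K → ℚ) (H : Submodule ℂ (Fin r → ℂ)) (A : Place ℂ K → ℚ) : Prop :=
  ∃ (C : ℕ) (G : Place ℂ K → ℚ), Good S F D G ∧ ∀ m : ℕ,
    finrank ℂ (CHs δ H ⊓ fnSubS S (m • D + A) : Submodule ℂ K) ≤
      C * finrank ℂ (fnSubS S (m • D + G))

/-- normalised divisors -/
def Nrm (S : Set (Place ℂ K)) (F : IntermediateField ℂ K) (u : Fin r → K)
    (D A : Place ℂ K → ℚ) : Prop :=
  (∀ P ∈ S, Horizontal F P → D P = 0 → Unt u P → A P = 0) ∧
  ∀ P ∈ S, Horizontal F P → D P = 0 → ¬ Unt u P → ∃ a : ℕ, A P = a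

theorem Eng.et (h : Eng S F u δ D) {P : Place ℂ K} (hP : P ∈ S) (hF : Horizontal F P)
    (hD : D P = 0) (hu : Unt u P) : ∀ i, DerReg P (δ i) := by
  rcases h.typ P hP hF hD with h1 | h1
  · exact absurd hu (log_not_unt h1)
  · exact h1.2

theorem Eng.lg (h : Eng S F u δ D) {P : Place ℂ K} (hP : P ∈ S) (hF : Horizontal F P)
    (hD : D P = 0) (hu : ¬ Unt u P) : LogType u δ P := by
  rcases h.typ P hP hF hD with h1 | h1
  · exact h1
  · exact absurd h1.1 hu

theorem fins_add {A A' : Place ℂ K → ℚ} (h : FinS S A) (h' : FinS S A') : FinS S (A + A') := by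
  refine (h.union h').subset ?_
  rintro P ⟨hP, hne⟩
  by_contra hcon
  rw [Set.mem_union] at hcon
  push Not at hcon
  have h1 : A P = 0 := by
    by_contra h3
    exact hcon.1 ⟨hP, h3⟩
  have h2 : A' P = 0 := by
    by_contra h3
    exact hcon.2 ⟨hP, h3⟩
  exact hne (by rw [Pi.add_apply, h1, h2, add_zero])

theorem fins_smul {A : Place ℂ K → ℚ} (h : FinS S A) (m : ℕ) : FinS S (m • A) := by
  refine h.subset ?_
  rintro P ⟨hP, hne⟩
  refine ⟨hP, fun h0 => hne ?_⟩
  rw [smul_ap', h0, mul_zero]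

/-! ### linear algebra -/

theorem finrank_map {V W : Submodule ℂ K} [Module.Finite ℂ W] (φ : K →ₗ[ℂ] K)
    (hφ : Function.Injective φ) (h : ∀ f ∈ V, φ f ∈ W) : finrank ℂ V ≤ finrank ℂ W := by
  refine LinearMap.finrank_le_finrank_of_injective (f := φ.restrict h) ?_
  intro f g hfg
  have h1 := congrArg Subtype.val hfg
  exact Subtype.ext (hφ h1)

theorem finrank_ker {V W Z : Submodule ℂ K} [Module.Finite ℂ V] [Module.Finite ℂ W]
    [Module.Finite ℂ Z] (φ ψ : K →ₗ[ℂ] K) (hψ : Function.Injective ψ) (h : ∀ f ∈ V, φ f ∈ W)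
    (hk : ∀ f ∈ V, φ f = 0 → ψ f ∈ Z) : finrank ℂ V ≤ finrank ℂ W + finrank ℂ Z := by
  have h1 := LinearMap.finrank_range_add_finrank_ker (φ.restrict h)
  have h2 : finrank ℂ (LinearMap.range (φ.restrict h)) ≤ finrank ℂ W := Submodule.finrank_le _
  have h3 : finrank ℂ (LinearMap.ker (φ.restrict h)) ≤ finrank ℂ Z := by
    let θ : LinearMap.ker (φ.restrict h) →ₗ[ℂ] Z :=
      { toFun := fun f => ⟨ψ f.1.1, hk f.1.1 f.1.2 (congrArg Subtype.val f.2)⟩
        map_add' := fun f g => Subtype.ext (by simp)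
        map_smul' := fun c f => Subtype.ext (by simp) }
    refine LinearMap.finrank_le_finrank_of_injective (f := θ) ?_
    intro f g hfg
    have h4 := congrArg Subtype.val hfg
    exact Subtype.ext (Subtype.ext (hψ h4))
  omega

theorem mul_inj {l : K} (hl : l ≠ 0) : Function.Injective (LinearMap.mulLeft ℂ l : K →ₗ[ℂ] K) :=
  mul_right_injective₀ hl

/-! ### the steps -/

/-- removal of the poles at the places of unramified type -/
theorem step_et (h : Eng S F u δ D) (H : Submodule ℂ (Fin r → ℂ)) {A : Place ℂ K → ℚ}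
    (hA : FinS S A) : ∃ (l : K) (A1 : Place ℂ K → ℚ), l ≠ 0 ∧ FinS S A1 ∧ Nrm S F u D A1 ∧
      ∀ (m : ℕ), ∀ f ∈ CHs δ H ⊓ fnSubS S (m • D + A),
        l * f ∈ CHs δ H ⊓ fnSubS S (m • D + A1) := by
  classical
  have hT : {P | P ∈ S ∧ A P ≠ 0 ∧ Horizontal F P ∧ Unt u P ∧ ∃ b ∈ CH δ H, P.ord b ≠ 0}.Finite :=
    hA.subset fun P hP => ⟨hP.1, hP.2.1⟩
  have hex : ∀ P : Place ℂ K, ∃ l : K, l ≠ 0 ∧ (P ∈ hT.toFinset → (l ∈ CH δ H ∧ 0 < P.ord l ∧
      ∀ P' : Place ℂ K, Horizontal F P' → Unt u P' → 0 ≤ P'.ord l)) := by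
    intro P
    by_cases hP : P ∈ hT.toFinset
    · obtain ⟨-, -, hF, hu, b, hb, hb0⟩ := (Set.Finite.mem_toFinset hT).1 hP
      obtain ⟨l, h1, h2, h3, h4⟩ := h.lam H P hF hu b hb hb0
      exact ⟨l, h2, fun _ => ⟨h1, h3, h4⟩⟩
    · exact ⟨1, one_ne_zero, fun h1 => absurd h1 hP⟩
  choose l hl0 hl using hex
  obtain ⟨L, hL⟩ : ∃ L, L = ∏ P ∈ hT.toFinset, l P ^ ⌈|A P|⌉₊ := ⟨_, rfl⟩
  have hL0 : L ≠ 0 := by
    rw [hL]
    exact Finset.prod_ne_zero_iff.2 fun P _ => pow_ne_zero _ (hl0 P)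
  have hLH : L ∈ CH δ H := by
    rw [hL]
    exact CH_prod _ fun P hP => CH_pow (hl P hP).1 _
  have hordL : ∀ P' : Place ℂ K, P'.ord L = ∑ P ∈ hT.toFinset, (⌈|A P|⌉₊ : ℤ) * P'.ord (l P) := by
    intro P'
    rw [hL]
    have key : ∀ s : Finset (Place ℂ K), P'.ord (∏ P ∈ s, l P ^ ⌈|A P|⌉₊) =
        ∑ P ∈ s, (⌈|A P|⌉₊ : ℤ) * P'.ord (l P) := by
      intro s
      induction s using Finset.induction_on with
      | empty => rw [Finset.prod_empty, Finset.sum_empty, P'.ord_one]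
      | insert a s ha ih =>
        rw [Finset.prod_insert ha, Finset.sum_insert ha, P'.ord_mul (pow_ne_zero _ (hl0 a))
          (Finset.prod_ne_zero_iff.2 fun P _ => pow_ne_zero _ (hl0 P)), P'.ord_pow, ih]
    exact key _
  obtain ⟨A1, hA1⟩ : ∃ A1 : Place ℂ K → ℚ, ∀ P, A1 P = if Horizontal F P ∧ D P = 0 ∧ Unt u P
      then 0 else ((⌈|A P|⌉₊ + (P.ord L).natAbs : ℕ) : ℚ) := ⟨_, fun _ => rfl⟩
  refine ⟨L, A1, hL0, ?_, ⟨?_, ?_⟩, ?_⟩
  · refine (hA.union (h.ford L hL0)).subset ?_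
    rintro P ⟨hP, hne⟩
    by_contra hcon
    rw [Set.mem_union] at hcon
    push Not at hcon
    have h1 : A P = 0 := by
      by_contra h3
      exact hcon.1 ⟨hP, h3⟩
    have h2 : P.ord L = 0 := by
      by_contra h3
      exact hcon.2 ⟨hP, h3⟩
    apply hne
    rw [hA1, h1, h2]
    simp
  · intro P _ hF hD hu
    rw [hA1, if_pos ⟨hF, hD, hu⟩]
  · intro P _ _ _ hu
    exact ⟨_, by rw [hA1, if_neg fun h1 => hu h1.2.2]⟩
  · rintro m f ⟨hfH, hf⟩
    refine ⟨CH_mul hLH hfH, fun P hP => ?_⟩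
    by_cases hf0 : f = 0
    · left
      rw [hf0, mul_zero]
    right
    have h1 := (hf P hP).resolve_left hf0
    rw [P.ord_mul hL0 hf0, Pi.add_apply, smul_ap', hA1]
    rw [Pi.add_apply, smul_ap'] at h1
    push_cast
    by_cases hc : Horizontal F P ∧ D P = 0 ∧ Unt u P
    · obtain ⟨hF, hD, hu⟩ := hc
      rw [if_pos ⟨hF, hD, hu⟩, hD, mul_zero, add_zero, neg_zero]
      rw [hD, mul_zero, zero_add] at h1
      have hL1 : 0 ≤ P.ord L := by
        rw [hordL]
        exact Finset.sum_nonneg fun Q hQ => mul_nonneg (Int.natCast_nonneg _)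
          ((hl Q hQ).2.2 P hF hu)
      by_cases hA0 : A P = 0
      · rw [hA0] at h1
        have : (0 : ℚ) ≤ P.ord L := by exact_mod_cast hL1
        linarith
      by_cases hb : ∃ b ∈ CH δ H, P.ord b ≠ 0
      · have hPT : P ∈ hT.toFinset := (Set.Finite.mem_toFinset hT).2 ⟨hP, hA0, hF, hu, hb⟩
        have h2 : (⌈|A P|⌉₊ : ℤ) ≤ P.ord L := by
          rw [hordL]
          have h3 : (⌈|A P|⌉₊ : ℤ) * P.ord (l P) ≤
              ∑ Q ∈ hT.toFinset, (⌈|A Q|⌉₊ : ℤ) * P.ord (l Q) :=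
            Finset.single_le_sum (f := fun Q => (⌈|A Q|⌉₊ : ℤ) * P.ord (l Q))
              (fun Q hQ => mul_nonneg (Int.natCast_nonneg _) ((hl Q hQ).2.2 P hF hu)) hPT
          have h4 := (hl P hPT).2.1
          nlinarith [Int.natCast_nonneg ⌈|A P|⌉₊]
        have h3 : (⌈|A P|⌉₊ : ℚ) ≤ P.ord L := by exact_mod_cast h2
        have h4 := Nat.le_ceil |A P|
        have h5 := le_abs_self (A P)
        linarith
      · push Not at hb
        have h2 := hb f hfH
        rw [h2]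
        have : (0 : ℚ) ≤ P.ord L := by exact_mod_cast hL1
        push_cast
        linarith
    · rw [if_neg hc]
      have h2 := Nat.le_ceil |A P|
      have h3 := le_abs_self (A P)
      have h4 : (-(P.ord L).natAbs : ℚ) ≤ P.ord L := by
        have : -((P.ord L).natAbs : ℤ) ≤ P.ord L := by omega
        exact_mod_cast this
      linarith

/-- the operators raise the poles by a bounded amount -/
theorem step_op (h : Eng S F u δ D) {A : Place ℂ K → ℚ} (hA : FinS S A) (hN : Nrm S F u D A) :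
    ∃ A' : Place ℂ K → ℚ, FinS S A' ∧
      (∀ P ∈ S, Horizontal F P → D P = 0 → A' P = A P) ∧
      ∀ (x : Fin r → ℂ) (c : ℂ) (m : ℕ) (f : K), FnS S (m • D + A) f →
        FnS S (m • D + A') (opr δ x c f) := by
  classical
  have hb : ∀ P : Place ℂ K, ∃ c : ℕ, P ∈ S → ∀ (i : Fin r) (f : K), f ≠ 0 →
      Ge P (P.ord f - c) (δ i f) := by
    intro P
    by_cases hP : P ∈ S
    · obtain ⟨c, hc⟩ := h.bdd P hP
      exact ⟨c, fun _ => hc⟩
    · exact ⟨0, fun h1 => absurd h1 hP⟩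
  choose b hb using hb
  obtain ⟨T, hT⟩ : ∃ T : Place ℂ K → Prop, ∀ P, T P ↔ (D P ≠ 0 ∨ A P ≠ 0 ∨
      ¬ ∀ i, DerReg P (δ i)) := ⟨_, fun _ => Iff.rfl⟩
  obtain ⟨A', hA'⟩ : ∃ A' : Place ℂ K → ℚ, ∀ P, A' P = A P + if Horizontal F P ∧ D P = 0 then 0
      else if T P then (b P : ℚ) else 0 := ⟨_, fun _ => rfl⟩
  refine ⟨A', ?_, ?_, ?_⟩
  · refine ((h.finD.union hA).union h.freg).subset ?_
    rintro P ⟨hP, hne⟩
    by_contra hcon
    rw [Set.mem_union, Set.mem_union] at hcon
    push Not at hcon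
    have h1 : D P = 0 := by
      by_contra h3
      exact hcon.1.1 ⟨hP, h3⟩
    have h2 : A P = 0 := by
      by_contra h3
      exact hcon.1.2 ⟨hP, h3⟩
    have h3 : ∀ i, DerReg P (δ i) := by
      by_contra h3
      push Not at h3
      exact hcon.2 ⟨hP, h3⟩
    apply hne
    rw [hA', h2, zero_add]
    split_ifs with h4 h5
    · rfl
    · exact absurd ((hT P).1 h5) (by
        push Not
        exact ⟨h1, h2, h3⟩)
    · rfl
  · intro P _ hF hD
    rw [hA', if_pos ⟨hF, hD⟩, add_zero]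
  · intro x c m f hf P hP
    by_cases hf0 : f = 0
    · left
      rw [hf0, map_zero]
    have h1 := (hf P hP).resolve_left hf0
    rw [Pi.add_apply, smul_ap'] at h1 ⊢
    by_cases hFD : Horizontal F P ∧ D P = 0
    · rw [hA', if_pos hFD, add_zero]
      by_cases hu : Unt u P
      · have h2 := hN.1 P hP hFD.1 hFD.2 hu
        rw [h2, hFD.2, mul_zero, add_zero, neg_zero] at h1 ⊢
        have h3 : P.Reg f := Or.inr (by exact_mod_cast h1)
        have h4 := ge_opr (δ := δ) (x := x) (a := c) (c := 0) (f := f) h3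
          fun i => h.et hP hFD.1 hFD.2 hu i f h3
        exact h4.imp_right fun h5 => by exact_mod_cast h5
      · have h2 := h.lg hP hFD.1 hFD.2 hu
        have h4 := ge_opr (δ := δ) (x := x) (a := c) (f := f) (ge_self f)
          fun i => ge_log h2.1 hf0 i
        refine h4.imp_right fun h5 => h1.trans ?_
        exact_mod_cast h5
    · by_cases hTP : T P
      · rw [hA', if_neg hFD, if_pos hTP]
        have h4 := ge_opr (δ := δ) (x := x) (a := c) (f := f) (c := P.ord f - b P)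
          ((ge_self f).mono (by omega)) fun i => hb P hP i f hf0
        refine h4.imp_right fun h5 => ?_
        have h6 : ((P.ord f - b P : ℤ) : ℚ) ≤ (P.ord (opr δ x c f) : ℚ) := by exact_mod_cast h5
        push_cast at h6
        linarith
      · rw [hA', if_neg hFD, if_neg hTP, add_zero]
        have h2 : D P = 0 ∧ A P = 0 ∧ ∀ i, DerReg P (δ i) := by
          by_contra h3
          apply hTP
          rw [hT]
          tauto
        rw [h2.1, h2.2.1, mul_zero, add_zero, neg_zero] at h1 ⊢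
        have h3 : P.Reg f := Or.inr (by exact_mod_cast h1)
        have h4 := ge_opr (δ := δ) (x := x) (a := c) (c := 0) (f := f) h3
          fun i => h2.2.2 i f h3
        exact h4.imp_right fun h5 => by exact_mod_cast h5

/-- the operator which kills the poles of highest order -/
theorem step_log {P : Place ℂ K} (h : LogType u δ P) (j : ℕ) {f : K} (hf : f ≠ 0)
    (hj : -((j : ℤ) + 1) ≤ P.ord f) : Ge P (-(j : ℤ)) (opr δ (rho u P) ((j : ℂ) + 1) f) := by
  by_cases h1 : P.ord f = -((j : ℤ) + 1)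
  · have h2 := h.2 f hf
    have h3 : opr δ (rho u P) ((j : ℂ) + 1) f =
        (dl δ (rho u P) f / f - (P.ord f : K)) * f := by
      rw [opr_apply, h1, sub_mul, div_mul_cancel₀ _ hf, Algebra.smul_def]
      push_cast
      ring
    rw [h3]
    exact (h2.mul (ge_self f)).mono (by omega)
  · exact (ge_opr (ge_self f) fun i => ge_log h.1 hf i).mono (by omega)

/-- the bounds are closed under sums -/
theorem good_sup {G G' : Place ℂ K → ℚ} (h : Good S F D G) (h' : Good S F D G') :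
    Good S F D (fun P => max (G P) (G' P)) := by
  refine ⟨?_, fun P hP hF hD => max_le (h.2 P hP hF hD) (h'.2 P hP hF hD)⟩
  refine (h.1.union h'.1).subset ?_
  rintro P ⟨hP, hne⟩
  by_contra hcon
  rw [Set.mem_union] at hcon
  push Not at hcon
  have h1 : G P = 0 := by
    by_contra h3
    exact hcon.1 ⟨hP, h3⟩
  have h2 : G' P = 0 := by
    by_contra h3
    exact hcon.2 ⟨hP, h3⟩
  exact hne (by simp [h1, h2])

theorem Eng.fin (h : Eng S F u δ D) {A : Place ℂ K → ℚ} (hA : FinS S A) (m : ℕ) :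
    Module.Finite ℂ (fnSubS S (m • D + A)) := h.ffin _ (fins_add (fins_smul h.finD m) hA)

theorem Eng.finH (h : Eng S F u δ D) {A : Place ℂ K → ℚ} (hA : FinS S A) (m : ℕ)
    (H : Submodule ℂ (Fin r → ℂ)) :
    Module.Finite ℂ (CHs δ H ⊓ fnSubS S (m • D + A) : Submodule ℂ K) := by
  have := h.fin hA m
  exact Submodule.finiteDimensional_of_le inf_le_right

theorem add_le_max (h : Eng S F u δ D) {G G' : Place ℂ K → ℚ} (hG : Good S F D G)
    (hG' : Good S F D G') {a b C C' m : ℕ}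
    (ha : a ≤ C * finrank ℂ (fnSubS S (m • D + G)))
    (hb : b ≤ C' * finrank ℂ (fnSubS S (m • D + G'))) :
    a + b ≤ (C + C') * finrank ℂ (fnSubS S (m • D + fun P => max (G P) (G' P))) := by
  have := h.fin (good_sup hG hG').1 m
  have h1 : finrank ℂ (fnSubS S (m • D + G)) ≤
      finrank ℂ (fnSubS S (m • D + fun P => max (G P) (G' P))) :=
    Submodule.finrank_mono (sub_mono fun P _ => by
      rw [Pi.add_apply, Pi.add_apply]
      linarith [le_max_left (G P) (G' P)])
  have h2 : finrank ℂ (fnSubS S (m • D + G')) ≤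
      finrank ℂ (fnSubS S (m • D + fun P => max (G P) (G' P))) :=
    Submodule.finrank_mono (sub_mono fun P _ => by
      rw [Pi.add_apply, Pi.add_apply]
      linarith [le_max_right (G P) (G' P)])
  calc a + b ≤ C * finrank ℂ (fnSubS S (m • D + G)) + C' * finrank ℂ (fnSubS S (m • D + G')) :=
        add_le_add ha hb
    _ ≤ C * finrank ℂ (fnSubS S (m • D + fun P => max (G P) (G' P))) +
        C' * finrank ℂ (fnSubS S (m • D + fun P => max (G P) (G' P))) :=
        add_le_add (Nat.mul_le_mul_left _ h1) (Nat.mul_le_mul_left _ h2)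
    _ = _ := (add_mul _ _ _).symm

theorem CH_sup {H : Submodule ℂ (Fin r → ℂ)} {x : Fin r → ℂ} {f : K} (hf : f ∈ CH δ H)
    (hx : dl δ x f = 0) : f ∈ CH δ (H ⊔ Submodule.span ℂ {x}) := by
  intro z hz
  obtain ⟨a, ha, b, hb, rfl⟩ := Submodule.mem_sup.1 hz
  obtain ⟨c, rfl⟩ := Submodule.mem_span_singleton.1 hb
  rw [dl_add, dl_smul, hf a ha, hx, smul_zero, add_zero]

theorem dl_div {x : Fin r → ℂ} {f g : K} (hg : g ≠ 0) {c : ℂ} (h1 : dl δ x f = c • f)
    (h2 : dl δ x g = c • g) : dl δ x (g⁻¹ * f) = 0 := by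
  have h3 : dl δ x (g * (g⁻¹ * f)) = c • (g * (g⁻¹ * f)) := by
    rw [mul_inv_cancel_left₀ hg, h1]
  rw [Derivation.leibniz, h2, smul_eq_mul, smul_eq_mul, Algebra.smul_def, Algebra.smul_def] at h3
  have h4 : g * dl δ x (g⁻¹ * f) = 0 := by linear_combination h3
  exact (mul_eq_zero.1 h4).resolve_left hg

/-- the inner induction -/
theorem inner (h : Eng S F u δ D) (H : Submodule ℂ (Fin r → ℂ))
    (hIH : ∀ x, x ∉ H → ∀ A, FinS S A → Bd S F δ D (H ⊔ Submodule.span ℂ {x}) A)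
    (T : Finset (Place ℂ K)) (hT : ∀ P ∈ T, P ∈ S ∧ Horizontal F P ∧ D P = 0 ∧ ¬ Unt u P) :
    ∀ (N : ℕ) (A : Place ℂ K → ℚ), FinS S A → Nrm S F u D A →
      (∀ P ∈ S, Horizontal F P → D P = 0 → ¬ Unt u P → P ∉ T → A P = 0) →
      ∑ P ∈ T, ⌊A P⌋₊ = N → Bd S F δ D H A := by
  classical
  intro N
  induction N with
  | zero =>
    intro A hA hN hAT hsum
    have hg : Good S F D A := by
      refine ⟨hA, fun P hP hF hD => ?_⟩
      by_cases hu : Unt u P
      · exact (hN.1 P hP hF hD hu).le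
      · by_cases hPT : P ∈ T
        · have h1 := (Finset.sum_eq_zero_iff.1 hsum) P hPT
          obtain ⟨a, ha⟩ := hN.2 P hP hF hD hu
          rw [ha, Nat.floor_natCast] at h1
          rw [ha, h1]
          simp
        · exact (hAT P hP hF hD hu hPT).le
    refine ⟨1, A, hg, fun m => ?_⟩
    rw [one_mul]
    have := h.fin hA m
    exact Submodule.finrank_mono inf_le_right
  | succ N ih =>
    intro A hA hN hAT hsum
    obtain ⟨P0, hP0T, hP0⟩ : ∃ P ∈ T, ⌊A P⌋₊ ≠ 0 := by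
      by_contra hcon
      push Not at hcon
      rw [Finset.sum_eq_zero hcon] at hsum
      omega
    obtain ⟨hP0S, hP0F, hP0D, hP0u⟩ := hT P0 hP0T
    obtain ⟨a, ha⟩ := hN.2 P0 hP0S hP0F hP0D hP0u
    rw [ha, Nat.floor_natCast] at hP0
    obtain ⟨j, rfl⟩ : ∃ j, a = j + 1 := ⟨a - 1, by omega⟩
    have hlog := h.lg hP0S hP0F hP0D hP0u
    obtain ⟨A', hA', hA'eq, hop⟩ := step_op h hA hN
    -- the improved divisor
    obtain ⟨A2, hA2⟩ : ∃ A2 : Place ℂ K → ℚ, ∀ P, A2 P = if P = P0 then (j : ℚ) else A' P :=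
      ⟨_, fun _ => rfl⟩
    have hA2fin : FinS S A2 := by
      refine (hA'.union (Set.finite_singleton P0)).subset ?_
      rintro P ⟨hP, hne⟩
      by_cases h1 : P = P0
      · exact Or.inr h1
      · left
        rw [hA2, if_neg h1] at hne
        exact ⟨hP, hne⟩
    have hA2N : Nrm S F u D A2 := by
      refine ⟨fun P hP hF hD hu => ?_, fun P hP hF hD hu => ?_⟩
      · have h1 : P ≠ P0 := by
          rintro rfl
          exact hP0u hu
        rw [hA2, if_neg h1, hA'eq P hP hF hD, hN.1 P hP hF hD hu]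
      · by_cases h1 : P = P0
        · exact ⟨j, by rw [hA2, if_pos h1]⟩
        · rw [hA2, if_neg h1, hA'eq P hP hF hD]
          exact hN.2 P hP hF hD hu
    have hA2T : ∀ P ∈ S, Horizontal F P → D P = 0 → ¬ Unt u P → P ∉ T → A2 P = 0 := by
      intro P hP hF hD hu hPT
      have h1 : P ≠ P0 := by
        rintro rfl
        exact hPT hP0T
      rw [hA2, if_neg h1, hA'eq P hP hF hD]
      exact hAT P hP hF hD hu hPT
    have hsum2 : ∑ P ∈ T, ⌊A2 P⌋₊ = N := by
      rw [← Finset.add_sum_erase T _ hP0T] at hsum ⊢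
      have h1 : ∑ P ∈ T.erase P0, ⌊A2 P⌋₊ = ∑ P ∈ T.erase P0, ⌊A P⌋₊ := by
        refine Finset.sum_congr rfl fun P hP => ?_
        obtain ⟨h2, h3⟩ := Finset.mem_erase.1 hP
        obtain ⟨h4, h5, h6, -⟩ := hT P h3
        rw [hA2, if_neg h2, hA'eq P h4 h5 h6]
      rw [h1, hA2, if_pos rfl, Nat.floor_natCast]
      rw [ha, Nat.floor_natCast] at hsum
      omega
    obtain ⟨C, G, hG, hCG⟩ := ih A2 hA2fin hA2N hA2T hsum2
    have hmap : ∀ m : ℕ, ∀ f ∈ CHs δ H ⊓ fnSubS S (m • D + A),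
        opr δ (rho u P0) ((j : ℂ) + 1) f ∈ CHs δ H ⊓ fnSubS S (m • D + A2) := by
      rintro m f ⟨hfH, hf⟩
      refine ⟨opr_CH h.com _ _ hfH, fun P hP => ?_⟩
      by_cases h1 : P = P0
      · subst h1
        by_cases hf0 : f = 0
        · left
          rw [hf0, map_zero]
        have h2 := (hf P hP).resolve_left hf0
        rw [Pi.add_apply, smul_ap', hP0D, mul_zero, zero_add, ha] at h2
        have h3 : -((j : ℤ) + 1) ≤ P.ord f := by
          push_cast at h2
          exact_mod_cast h2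
        refine (step_log hlog j hf0 h3).imp_right fun h4 => ?_
        rw [Pi.add_apply, smul_ap', hP0D, mul_zero, zero_add, hA2, if_pos rfl]
        exact_mod_cast h4
      · have h2 := hop (rho u P0) ((j : ℂ) + 1) m f hf P hP
        rw [Pi.add_apply] at h2 ⊢
        rw [hA2, if_neg h1]
        exact h2
    by_cases hx : ∃ f0 ∈ CH δ H, f0 ≠ 0 ∧ opr δ (rho u P0) ((j : ℂ) + 1) f0 = 0
    · obtain ⟨f0, hf0H, hf00, hf0⟩ := hx
      have hxH : rho u P0 ∉ H := by
        intro hx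
        rw [opr_apply, hf0H _ hx, zero_add] at hf0
        have h1 : ((j : ℂ) + 1) ≠ 0 := by exact_mod_cast Nat.succ_ne_zero j
        exact hf00 ((smul_eq_zero.1 hf0).resolve_left h1)
      obtain ⟨A3, hA3⟩ : ∃ A3 : Place ℂ K → ℚ, ∀ P, A3 P = A P + P.ord f0 := ⟨_, fun _ => rfl⟩
      have hA3fin : FinS S A3 := by
        refine (hA.union (h.ford f0 hf00)).subset ?_
        rintro P ⟨hP, hne⟩
        by_contra hcon
        rw [Set.mem_union] at hcon
        push Not at hcon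
        have h1 : A P = 0 := by
          by_contra h3
          exact hcon.1 ⟨hP, h3⟩
        have h2 : P.ord f0 = 0 := by
          by_contra h3
          exact hcon.2 ⟨hP, h3⟩
        exact hne (by rw [hA3, h1, h2]; simp)
      obtain ⟨C', G', hG', hCG'⟩ := hIH _ hxH A3 hA3fin
      refine ⟨C + C', fun P => max (G P) (G' P), good_sup hG hG', fun m => ?_⟩
      have i1 := h.finH hA m H
      have i2 := h.finH hA2fin m H
      have i3 := h.finH hA3fin m (H ⊔ Submodule.span ℂ {rho u P0})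
      refine (finrank_ker (opr δ (rho u P0) ((j : ℂ) + 1)) (LinearMap.mulLeft ℂ f0⁻¹)
        (mul_inj (inv_ne_zero hf00)) (hmap m) (Z := CHs δ (H ⊔ Submodule.span ℂ {rho u P0}) ⊓
          fnSubS S (m • D + A3)) ?_).trans (add_le_max h hG hG' (hCG m) (hCG' m))
      rintro f ⟨hfH, hf⟩ hker
      rw [LinearMap.mulLeft_apply]
      have e1 : dl δ (rho u P0) f = (-((j : ℂ) + 1)) • f := by
        rw [opr_apply] at hker
        rw [neg_smul]
        exact eq_neg_of_add_eq_zero_left hker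
      have e2 : dl δ (rho u P0) f0 = (-((j : ℂ) + 1)) • f0 := by
        rw [opr_apply] at hf0
        rw [neg_smul]
        exact eq_neg_of_add_eq_zero_left hf0
      refine ⟨CH_sup (fun x hx => ?_) (dl_div hf00 e1 e2), fun P hP => ?_⟩
      · exact dl_div (c := 0) hf00 (by rw [hfH x hx, zero_smul]) (by rw [hf0H x hx, zero_smul])
      · by_cases h0 : f = 0
        · left
          rw [h0, mul_zero]
        right
        have h1 := (hf P hP).resolve_left h0
        rw [P.ord_mul (inv_ne_zero hf00) h0, P.ord_inv, Pi.add_apply, hA3]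
        rw [Pi.add_apply] at h1
        push_cast
        linarith
    · refine ⟨C, G, hG, fun m => ?_⟩
      have i1 := h.finH hA m H
      have i2 := h.finH hA2fin m H
      refine le_trans ?_ (hCG m)
      have h1 := finrank_ker (opr δ (rho u P0) ((j : ℂ) + 1)) LinearMap.id
        (fun _ _ h => h) (hmap m) (Z := ⊥) (by
          rintro f ⟨hfH, -⟩ hker
          rw [LinearMap.id_apply, Submodule.mem_bot]
          by_contra h0
          exact hx ⟨f, hfH, h0, hker⟩)
      rwa [finrank_bot, add_zero] at h1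

/-- one step of the outer induction -/
theorem fin1 (h : Eng S F u δ D) (H : Submodule ℂ (Fin r → ℂ))
    (hIH : ∀ x, x ∉ H → ∀ A, FinS S A → Bd S F δ D (H ⊔ Submodule.span ℂ {x}) A)
    {A : Place ℂ K → ℚ} (hA : FinS S A) : Bd S F δ D H A := by
  classical
  obtain ⟨l, A1, hl, hA1, hN, hmap⟩ := step_et h H hA
  have hT : {P | P ∈ S ∧ A1 P ≠ 0 ∧ Horizontal F P ∧ D P = 0 ∧ ¬ Unt u P}.Finite :=
    hA1.subset fun P hP => ⟨hP.1, hP.2.1⟩
  obtain ⟨C, G, hG, hCG⟩ := inner h H hIH hT.toFinset (fun P hP => by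
    obtain ⟨h1, -, h2, h3, h4⟩ := (Set.Finite.mem_toFinset hT).1 hP
    exact ⟨h1, h2, h3, h4⟩) _ A1 hA1 hN (fun P hP hF hD hu hPT => by
    by_contra h1
    exact hPT ((Set.Finite.mem_toFinset hT).2 ⟨hP, h1, hF, hD, hu⟩)) rfl
  refine ⟨C, G, hG, fun m => le_trans ?_ (hCG m)⟩
  have i1 := h.finH hA1 m H
  exact finrank_map (LinearMap.mulLeft ℂ l) (mul_inj hl) (hmap m)

/-- the outer induction -/
theorem outer (h : Eng S F u δ D) : ∀ (k : ℕ) (H : Submodule ℂ (Fin r → ℂ)),
    r ≤ finrank ℂ H + k → ∀ A, FinS S A → Bd S F δ D H A := by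
  classical
  intro k
  induction k with
  | zero =>
    intro H hH A hA
    have hlt : ∀ x, x ∉ H → False := by
      intro x hx
      have h1 : H < H ⊔ Submodule.span ℂ {x} := by
        refine lt_of_le_of_ne le_sup_left fun h2 => hx ?_
        rw [h2]
        exact Submodule.mem_sup_right (Submodule.mem_span_singleton_self x)
      have h2 := Submodule.finrank_lt_finrank_of_lt h1
      have h3 := Submodule.finrank_le (H ⊔ Submodule.span ℂ {x})
      rw [finrank_fintype_fun_eq_card, Fintype.card_fin] at h3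
      omega
    exact fin1 h H (fun x hx => (hlt x hx).elim) hA
  | succ k ih =>
    intro H hH A hA
    refine fin1 h H (fun x hx => ih _ ?_) hA
    have h1 : H < H ⊔ Submodule.span ℂ {x} := by
      refine lt_of_le_of_ne le_sup_left fun h2 => hx ?_
      rw [h2]
      exact Submodule.mem_sup_right (Submodule.mem_span_singleton_self x)
    have h2 := Submodule.finrank_lt_finrank_of_lt h1
    omega

/-- **The engine.** -/
theorem engine (h : Eng S F u δ D) {A : Place ℂ K → ℚ} (hA : FinS S A) :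
    ∃ (C : ℕ) (G : Place ℂ K → ℚ), Good S F D G ∧ ∀ m : ℕ,
      finrank ℂ (fnSubS S (m • D + A)) ≤ C * finrank ℂ (fnSubS S (m • D + G)) := by
  obtain ⟨C, G, hG, hCG⟩ := outer h r ⊥ (by rw [finrank_bot, zero_add]) A hA
  refine ⟨C, G, hG, fun m => le_trans (le_of_eq ?_) (hCG m)⟩
  have h1 : CHs δ (⊥ : Submodule ℂ (Fin r → ℂ)) = ⊤ := by
    rw [eq_top_iff]
    intro f _ x hx
    rw [(Submodule.mem_bot ℂ).1 hx, dl_apply]
    simp
  rw [h1, top_inf_eq]

end Pool.Agent.NH53.UF.ENG
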