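import Pool.Agent.NH53.UF.Eng
import Pool.Agent.NH31.M5

/-!
Project UF: growth of the spaces of functions.
-/

set_option autoImplicit false
set_option linter.unusedSectionVars false

open FF Pool.Agent.W602.GT Pool.Agent.W603.LV Pool.Agent.Y172 Pool.Agent.NH31
open Module Pool.Agent.NH53.UF.ENG

namespace Pool.Agent.NH53.UF

variable {K : Type} [Field K] [Algebra ℂ K] {N n r : ℕ} {y : Fin (N + 1) → K}
  {F : IntermediateField ℂ K} {u : Fin r → K} {δ : Fin r → Derivation ℂ K K}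
  {D : Place ℂ K → ℚ}

theorem le_finrank_of_indep {W : Submodule ℂ K} [Module.Finite ℂ W] {s : ℕ} {f : Fin s → K}
    (hf : LinearIndependent ℂ f) (h : ∀ i, f i ∈ W) : s ≤ finrank ℂ W := by
  have h1 : LinearIndependent ℂ (fun i => (⟨f i, h i⟩ : W)) :=
    LinearIndependent.of_comp W.subtype hf
  have h2 := h1.fintype_card_le_finrank
  rwa [Fintype.card_fin] at h2

theorem finrank_le_of {W : Submodule ℂ K} [Module.Finite ℂ W] {C : ℕ}
    (h : ∀ (s : ℕ) (f : Fin s → K), LinearIndependent ℂ f → (∀ i, f i ∈ W) → s ≤ C) :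
    finrank ℂ W ≤ C := by
  have b := Module.finBasis ℂ W
  exact h _ (fun i => (b i : K)) (b.linearIndependent.map' W.subtype (Submodule.ker_subtype W))
    fun i => (b i).2

/-- **Growth of the sections.** -/
theorem unit_growth (hABS : S_ABS) (hy : NormalModel y) (hn : Algebra.trdeg ℂ K = n)
    (hE : Eng (Pr y) F u δ D) {D0 : Place ℂ K → ℚ}
    (hle : ∀ P, IsPrimeDivisor y P → D0 P ≤ D P) {a : ℕ} (ha : 1 ≤ a) {σ : K}
    (hσ : Fn y (a • D0) σ) (hσ0 : σ ≠ 0)
    (hF : ∀ x ∈ F, IsAlgebraic (IntermediateField.adjoin ℂ (rat y D0)) x)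
    (hnn : ∀ P, IsPrimeDivisor y P → Horizontal F P → 0 ≤ D P) :
    ∃ (κ m0 : ℕ) (g : Fin (κ + 1) → K), 1 ≤ m0 ∧ (∀ j, Fn y (m0 • D) (g j)) ∧ g 0 ≠ 0 ∧
      AlgebraicIndependent ℂ (fun i : Fin κ => g i.succ / g 0) ∧
      ∀ A, FinSup y A → ∃ C : ℕ, ∀ m : ℕ, 1 ≤ m → ∀ (s : ℕ) (f : Fin s → K),
        LinearIndependent ℂ f → (∀ i, Fn y (m • D + A) (f i)) → s ≤ C * m ^ κ := by
  classical
  have hσD : Fn y (a • D) σ := hσ.mono fun P hP => by
    rw [smul_ap, smul_ap]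
    exact mul_le_mul_of_nonneg_left (hle P hP) (Nat.cast_nonneg _)
  obtain ⟨κ, m0, g, hm0, hg, hg0, hgi, C0, hC0⟩ := iitaka_bound hy hn hE.finD ha hσD hσ0
  refine ⟨κ, m0, g, hm0, hg, hg0, hgi, fun A hA => ?_⟩
  obtain ⟨C1, G, hG, hC1⟩ := engine hE hA
  -- the divisor for the remainders
  obtain ⟨G', hG'⟩ : ∃ G' : Place ℂ K → ℚ, ∀ P, G' P = G P + a * |D P| := ⟨_, fun _ => rfl⟩
  have hG'fin : FinS (Pr y) G' := by
    refine (hG.1.union hE.finD).subset ?_
    rintro P ⟨hP, hne⟩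
    by_contra hcon
    rw [Set.mem_union] at hcon
    push Not at hcon
    have h1 : G P = 0 := by
      by_contra h3
      exact hcon.1 ⟨hP, h3⟩
    have h2 : D P = 0 := by
      by_contra h3
      exact hcon.2 ⟨hP, h3⟩
    exact hne (by rw [hG', h1, h2]; simp)
  obtain ⟨τ, c, hτ0, ⟨c', hc'⟩, hτ⟩ := hABS K N y hy F D0 D G' hE.finD hle a σ ha hσ hσ0 hF hnn
    hG'fin (fun P hP hPF hDP => by
      rw [hG', hDP, abs_zero, mul_zero, add_zero]
      exact hG.2 P hP hPF hDP)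
  refine ⟨C1 * (C0 * (c' + 2) ^ κ), fun m hm s f hf hfm => ?_⟩
  have i1 := hE.fin hA m
  have i2 := hE.fin hG.1 m
  have h1 : s ≤ finrank ℂ (fnSubS (Pr y) (m • D + A)) := le_finrank_of_indep hf hfm
  have h2 : finrank ℂ (fnSubS (Pr y) (m • D + G)) ≤ C0 * (m / a + c' + 1) ^ κ := by
    refine finrank_le_of fun t e he het => ?_
    refine hC0 (m / a + c' + 1) (Nat.succ_le_succ (Nat.zero_le _)) t (fun i => (σ * τ) * e i) ?_ fun i => ?_
    · exact he.map' (LinearMap.mulLeft ℂ (σ * τ)) (LinearMap.ker_eq_bot.2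
        (mul_right_injective₀ (mul_ne_zero hσ0 hτ0)))
    · have h3 : FnS (Pr y) ((a * (m / a)) • D + G') (e i) := by
        refine fns_mono (het i) fun P _ => ?_
        rw [Pi.add_apply, Pi.add_apply, smul_ap', smul_ap', hG']
        have h4 : (m : ℚ) = (a * (m / a) : ℕ) + (m % a : ℕ) := by
          exact_mod_cast (Nat.div_add_mod m a).symm
        have h5 : ((m % a : ℕ) : ℚ) ≤ a := by
          exact_mod_cast (Nat.mod_lt m (by omega)).le
        have h6 : (0 : ℚ) ≤ (m % a : ℕ) := Nat.cast_nonneg _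
        have h7 : ((m % a : ℕ) : ℚ) * D P ≤ a * |D P| :=
          (mul_le_mul_of_nonneg_left (le_abs_self _) h6).trans
            (mul_le_mul_of_nonneg_right h5 (abs_nonneg _))
        rw [h4]
        linarith
      have h4 : Fn y ((a * (m / a) + c) • D) (τ * e i) := hτ _ _ h3
      have h5 := hσD.mul h4
      rw [← add_smul] at h5
      have e1 : a + (a * (m / a) + c) = a * (m / a + c' + 1) := by
        rw [hc']
        ring
      rw [e1] at h5
      rwa [mul_assoc]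
  have h3 : m / a + c' + 1 ≤ (c' + 2) * m := by
    have h4 := Nat.div_le_self m a
    nlinarith
  calc s ≤ C1 * finrank ℂ (fnSubS (Pr y) (m • D + G)) := h1.trans (hC1 m)
    _ ≤ C1 * (C0 * (m / a + c' + 1) ^ κ) := Nat.mul_le_mul_left _ h2
    _ ≤ C1 * (C0 * ((c' + 2) * m) ^ κ) :=
        Nat.mul_le_mul_left _ (Nat.mul_le_mul_left _ (Nat.pow_le_pow_left h3 κ))
    _ = C1 * (C0 * (c' + 2) ^ κ) * m ^ κ := by rw [mul_pow]; ring

end Pool.Agent.NH53.UF
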