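import Pool.Agent.NH31.Defs
import Pool.Agent.W603.LV.Ord

/-!
Project UF (MP_2c56d9_ag): weak abundance for pairs with many independent units. Logarithmic
coordinates over a subfield of the function field, the types of the horizontal places, statements.
-/

set_option autoImplicit false

open FF Pool.Agent.W602.GT Pool.Agent.W603.LV Pool.Agent.Y172 Pool.Agent.NH31

namespace Pool.Agent.NH53.UF

section

variable {K : Type} [Field K] [Algebra ℂ K] {N n r : ℕ}

/-- `u 0, ..., u (r - 1)` is a transcendence basis of `K` over `F`, and `δ i` is the vector field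
`u i ∂ / ∂ u i` over `F`. -/
structure LogCrd (F : IntermediateField ℂ K) (u : Fin r → K) (δ : Fin r → Derivation ℂ K K) :
    Prop where
  ne : ∀ i, u i ≠ 0
  ind : AlgebraicIndependent F u
  alg : ∀ f : K, IsAlgebraic (Algebra.adjoin F (Set.range u)) f
  zero : ∀ i, ∀ f ∈ F, δ i f = 0
  dual : ∀ i j, δ i (u j) = if i = j then u j else 0

/-- the vector field of a vector -/
noncomputable def dl (δ : Fin r → Derivation ℂ K K) (x : Fin r → ℂ) : Derivation ℂ K K :=
  ∑ i, x i • δ i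

/-- the functions which are constant along the vector fields of `H` -/
def CH (δ : Fin r → Derivation ℂ K K) (H : Submodule ℂ (Fin r → ℂ)) : Set K :=
  {f | ∀ x ∈ H, dl δ x f = 0}

/-- the orders of the coordinates -/
def rho (u : Fin r → K) (P : Place ℂ K) : Fin r → ℂ := fun i => (P.ord (u i) : ℂ)

/-- all coordinates are units at `P` -/
def Unt (u : Fin r → K) (P : Place ℂ K) : Prop := ∀ i, P.ord (u i) = 0

/-- the place is of logarithmic type: the vector fields are logarithmic, and the vector field of the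
vector of the orders of the coordinates acts on the leading terms by the order -/
def LogType (u : Fin r → K) (δ : Fin r → Derivation ℂ K K) (P : Place ℂ K) : Prop :=
  (∀ i, DerLog P (δ i)) ∧ ∀ f : K, f ≠ 0 → Ge P 1 (dl δ (rho u P) f / f - (P.ord f : K))

/-- the place is of unramified type -/
def EtType (u : Fin r → K) (δ : Fin r → Derivation ℂ K K) (P : Place ℂ K) : Prop :=
  Unt u P ∧ ∀ i, DerReg P (δ i)

end

/-- UF-1 (COM): the vector fields commute, and the functions which are constant along all of them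
are algebraic over `F`. -/
def S_COM : Prop := ∀ (K : Type) [Field K] [Algebra ℂ K] (F : IntermediateField ℂ K) (r : ℕ)
  (u : Fin r → K) (δ : Fin r → Derivation ℂ K K), LogCrd F u δ →
  (∀ i j f, δ i (δ j f) = δ j (δ i f)) ∧
  (∀ f, (∀ i, δ i f = 0) → IsAlgebraic F f) ∧
  ∀ f, f ≠ 0 → (∀ i, δ i f = 0) → ∀ P : Place ℂ K, Horizontal F P → P.ord f = 0

/-- UF-2 (LAM): functions which vanish at a place where the coordinates are units. -/
def S_LAM : Prop := ∀ (K : Type) [Field K] [Algebra ℂ K] (F : IntermediateField ℂ K) (r : ℕ)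
  (u : Fin r → K) (δ : Fin r → Derivation ℂ K K), LogCrd F u δ →
  ∀ (H : Submodule ℂ (Fin r → ℂ)) (P : Place ℂ K), Horizontal F P → Unt u P →
  ∀ b ∈ CH δ H, P.ord b ≠ 0 → ∃ l ∈ CH δ H, l ≠ 0 ∧ 0 < P.ord l ∧
    ∀ P' : Place ℂ K, Horizontal F P' → Unt u P' → 0 ≤ P'.ord l

/-- the space of the rational functions `g` with `div g + D ≥ 0` along the places in `S` -/
def FnS {K : Type} [Field K] [Algebra ℂ K] (S : Set (Place ℂ K)) (D : Place ℂ K → ℚ) (g : K) :
    Prop :=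
  ∀ P, P ∈ S → g = 0 ∨ -(D P) ≤ (P.ord g : ℚ)

/-- finite support -/
def FinS {K : Type} [Field K] [Algebra ℂ K] (S : Set (Place ℂ K)) (D : Place ℂ K → ℚ) : Prop :=
  {P | P ∈ S ∧ D P ≠ 0}.Finite

/-- the prime divisors -/
def Pr {K : Type} [Field K] [Algebra ℂ K] {N : ℕ} (y : Fin (N + 1) → K) : Set (Place ℂ K) :=
  {P | IsPrimeDivisor y P}

/-- quotients of functions `f` with `div f + m U ≥ 0` -/
def ratS {K : Type} [Field K] [Algebra ℂ K] {N : ℕ} (y : Fin (N + 1) → K) (U : Place ℂ K → ℚ) :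
    Set K :=
  {x | ∃ (m : ℕ) (f g : K), 1 ≤ m ∧ FnS (Pr y) (m • U) f ∧ FnS (Pr y) (m • U) g ∧ g ≠ 0 ∧
    x = f / g}

/-- UF-3 (CRD): coordinates of `K` which extend the coordinates over `F`. -/
def S_CRD : Prop := ∀ (K : Type) [Field K] [Algebra ℂ K] [Algebra.EssFiniteType ℂ K]
  (F : IntermediateField ℂ K) (r : ℕ) (u : Fin r → K), AlgebraicIndependent F u →
  (∀ f : K, IsAlgebraic (Algebra.adjoin F (Set.range u)) f) → ∀ n : ℕ, Algebra.trdeg ℂ K = n →
  ∃ (x : Fin n → K) (E : Fin n → Derivation ℂ K K) (ι : Fin r → Fin n), Function.Injective ι ∧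
    IsTranscendenceBasis ℂ x ∧ (∀ i j, E i (x j) = if i = j then 1 else 0) ∧
    (∀ i, x (ι i) = u i) ∧ (∀ l, l ∉ Set.range ι → x l ∈ F) ∧
    LogCrd F u (fun i => u i • E (ι i))

/-- UF-4 (TYP): the types of the horizontal places; `a - 1 + ∑ ord (u i)` is the order of the form
`dx 0 ∧ ... ∧ dx (n - 1)`. -/
def S_TYP : Prop := ∀ (K : Type) [Field K] [Algebra ℂ K] [Algebra.EssFiniteType ℂ K]
  (F : IntermediateField ℂ K) (r : ℕ) (u : Fin r → K) (n : ℕ), Algebra.trdeg ℂ K = n →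
  ∀ (x : Fin n → K) (E : Fin n → Derivation ℂ K K) (ι : Fin r → Fin n), Function.Injective ι →
  IsTranscendenceBasis ℂ x → (∀ i j, E i (x j) = if i = j then 1 else 0) →
  (∀ i, x (ι i) = u i) → (∀ l, l ∉ Set.range ι → x l ∈ F) →
  LogCrd F u (fun i => u i • E (ι i)) →
  ∀ P : Place ℂ K, Divisorial n P → Horizontal F P → ∀ w : ℚ,
  (∀ (m : ℕ) (ω : (Fin n → Derivation ℂ K K) → K) (c : ℚ), IsPluri m ω →
    (OrdGe P ω c ↔ (ω E = 0 ∨ c - m * w ≤ P.ord (ω E)))) →
  ∃ a : ℤ, w = a - 1 + ∑ i, (P.ord (u i) : ℚ) ∧ 0 ≤ a ∧ (Unt u P → 1 ≤ a) ∧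
    (a = 0 → LogType u (fun i => u i • E (ι i)) P) ∧
    (a = 1 → Unt u P → EtType u (fun i => u i • E (ι i)) P)

/-- UF-5 (REG): regularity of vector fields at almost all prime divisors, and bounds. -/
def S_REG : Prop := ∀ (K : Type) [Field K] [Algebra ℂ K] (N n : ℕ) (y : Fin (N + 1) → K),
  NormalModel y → Algebra.trdeg ℂ K = n → ∀ (r : ℕ) (δ : Fin r → Derivation ℂ K K),
  {P | IsPrimeDivisor y P ∧ ¬ ∀ i, DerReg P (δ i)}.Finite ∧
  ∀ P, IsPrimeDivisor y P → ∃ c : ℕ, ∀ (i : Fin r) (f : K), f ≠ 0 → Ge P (P.ord f - c) (δ i f)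

/-- UF-6 (ABS): absorption of vertical poles. -/
def S_ABS : Prop := ∀ (K : Type) [Field K] [Algebra ℂ K] (N : ℕ) (y : Fin (N + 1) → K),
  NormalModel y → ∀ (F : IntermediateField ℂ K) (D0 D G : Place ℂ K → ℚ), FinS (Pr y) D →
  (∀ P, IsPrimeDivisor y P → D0 P ≤ D P) → ∀ (a : ℕ) (σ : K), 1 ≤ a → FnS (Pr y) (a • D0) σ →
  σ ≠ 0 → (∀ x ∈ F, IsAlgebraic (IntermediateField.adjoin ℂ (ratS y D0)) x) →
  (∀ P, IsPrimeDivisor y P → Horizontal F P → 0 ≤ D P) → FinS (Pr y) G →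
  (∀ P, IsPrimeDivisor y P → Horizontal F P → D P = 0 → G P ≤ 0) →
  ∃ (τ : K) (c : ℕ), τ ≠ 0 ∧ a ∣ c ∧ ∀ (m : ℕ) (f : K), FnS (Pr y) (m • D + G) f →
    FnS (Pr y) ((m + c) • D) (τ * f)

end Pool.Agent.NH53.UF
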