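import Pool.Agent.NH53.UF.Stm
import Pool.Agent.NH31.M5

/-!
Project UF, UF-4 (TYP): the types of the horizontal places.
-/

set_option autoImplicit false
set_option linter.unusedSectionVars false
set_option linter.overlappingInstances false

open FF Pool.Agent.W602.GT Pool.Agent.W603.LV Pool.Agent.Y172 Pool.Agent.NH31

namespace Pool.Agent.NH53.UF

namespace TYP

variable {K : Type} [Field K] [Algebra ℂ K]

/-- solutions of regular linear systems with invertible determinant -/
theorem reg_solve {n : ℕ} {P : Place ℂ K} (M : Matrix (Fin n) (Fin n) K)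
    (hM : ∀ i j, Ge P 0 (M i j)) (h0 : M.det ≠ 0) (ho : P.ord M.det = 0) (e l : Fin n → K)
    (hel : ∀ i, ∑ j, M i j * e j = l i) (hl : ∀ i, Ge P 0 (l i)) (j : Fin n) : Ge P 0 (e j) := by
  classical
  have h1 : M.mulVec e = l := by
    funext i
    rw [← hel i]
    rfl
  have h2 : M.cramer l = M.det • e := by
    rw [Matrix.cramer_eq_adjugate_mulVec, ← h1, Matrix.mulVec_mulVec, Matrix.adjugate_mul,
      Matrix.smul_mulVec, Matrix.one_mulVec]
  have h3 : M.det * e j = (M.updateCol j l).det := by
    rw [← Matrix.cramer_apply, h2, Pi.smul_apply, smul_eq_mul]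
  have h4 : Ge P 0 (M.updateCol j l).det := by
    refine Pool.Agent.W619.PQ.ge_det P _ fun a b => ?_
    by_cases hb : b = j
    · subst hb
      rw [Matrix.updateCol_self]
      exact hl a
    · rw [Matrix.updateCol_ne hb]
      exact hM a b
  rw [← h3] at h4
  have h5 := Ge.of_mul' (N := 0) h0 ho (by simpa using h4)
  exact h5

theorem ge_divu {P : Place ℂ K} {f g : K} (hf : Ge P 0 f) (hg : g ≠ 0) (hg0 : P.ord g = 0) :
    Ge P 0 (f / g) := by
  refine Ge.of_mul' (h := g) (m := 0) hg hg0 ?_
  rw [mul_div_cancel₀ _ hg]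
  simpa using hf

end TYP

open TYP in
theorem t_TYP : S_TYP := by
  intro K _ _ _ F r u n hn x E ι hι hx hE hxu hxF hc P hP hPF w hw
  classical
  obtain ⟨z, G, i0, hl⟩ := exists_loc hn hP
  -- the coordinates
  obtain ⟨y, hy⟩ : ∃ y : Fin n → K, y = fun j => if j ∈ Set.range ι then x j else 1 := ⟨_, rfl⟩
  have hyr : ∀ i, y (ι i) = u i := by
    intro i
    rw [hy]
    simp only [Set.mem_range, exists_apply_eq_apply, if_true]
    exact hxu i
  have hyn : ∀ j, j ∉ Set.range ι → y j = 1 := by
    intro j hj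
    rw [hy]
    exact if_neg hj
  have hy0 : ∀ j, y j ≠ 0 := by
    intro j
    by_cases hj : j ∈ Set.range ι
    · obtain ⟨i, rfl⟩ := hj
      rw [hyr]
      exact hc.ne i
    · rw [hyn j hj]
      exact one_ne_zero
  have hx0 : ∀ j, x j ≠ 0 := fun j => hx.1.ne_zero j
  have hregF : ∀ l, l ∉ Set.range ι → P.ord (x l) = 0 := fun l hl' => hPF _ (hxF l hl') (hx0 l)
  -- the determinant
  obtain ⟨d, hd⟩ : ∃ d, d = (Matrix.of fun i j => G i (x j)).det := ⟨_, rfl⟩
  have hd0 : d ≠ 0 := hd ▸ det_ne hl.bas hl.dual hE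
  have hwd : w = P.ord d := by
    have hp := frm_pluri x 1 (1 : K)
    have he : frm x 1 (1 : K) E = 1 := frm_eval hE 1 1
    have hg : frm x 1 (1 : K) G = d := by
      rw [hd, frm, pow_one, mul_one]
    have key : ∀ c : ℚ, c ≤ P.ord d ↔ c ≤ w := by
      intro c
      have h1 := hw 1 _ c hp
      rw [ordGe_iff hl hp, he, hg, P.ord_one] at h1
      simp only [hd0, one_ne_zero, false_or] at h1
      rw [h1]
      push_cast
      constructor <;> intro h <;> linarith
    exact le_antisymm ((key w).2 le_rfl) ((key _).1 le_rfl)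
  have hprod : ∏ j, y j = ∏ i, u i :=
    (Fintype.prod_of_injective ι hι u y hyn fun i => (hyr i).symm).symm
  have hu0 : ∏ i, u i ≠ 0 := Finset.prod_ne_zero_iff.2 fun i _ => hc.ne i
  have hordp : P.ord (∏ i, u i) = ∑ i, P.ord (u i) := by
    have key : ∀ s : Finset (Fin r), P.ord (∏ i ∈ s, u i) = ∑ i ∈ s, P.ord (u i) := by
      intro s
      induction s using Finset.induction_on with
      | empty => rw [Finset.prod_empty, Finset.sum_empty, P.ord_one]
      | insert a s ha ih =>
        rw [Finset.prod_insert ha, Finset.sum_insert ha, P.ord_mul (hc.ne a)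
          (Finset.prod_ne_zero_iff.2 fun i _ => hc.ne i), ih]
    exact key _
  -- the regular matrix
  obtain ⟨A, hA⟩ : ∃ A : Matrix (Fin n) (Fin n) K, A = Matrix.of fun i j => G i (x j) / y j :=
    ⟨_, rfl⟩
  obtain ⟨M, hM⟩ : ∃ M : Matrix (Fin n) (Fin n) K,
      M = Matrix.of fun i j => lc z i0 i * (G i (x j) / y j) := ⟨_, rfl⟩
  have hAd : A.det * ∏ i, u i = d := by
    rw [← hprod, ← Matrix.det_diagonal, ← Matrix.det_mul, hd]
    congr 1
    ext i j
    rw [Matrix.mul_diagonal, hA, Matrix.of_apply, Matrix.of_apply, div_mul_cancel₀ _ (hy0 j)]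
  have hMd : M.det = z i0 * A.det := by
    rw [← prod_lc z i0, ← Matrix.det_diagonal, ← Matrix.det_mul]
    congr 1
    ext i j
    rw [Matrix.diagonal_mul, hM, hA, Matrix.of_apply, Matrix.of_apply]
  have hA0 : A.det ≠ 0 := by
    intro h
    rw [h, zero_mul] at hAd
    exact hd0 hAd.symm
  have hM0 : M.det ≠ 0 := hMd ▸ mul_ne_zero hl.ne hA0
  have hAo : P.ord A.det + ∑ i, P.ord (u i) = P.ord d := by
    rw [← hordp, ← P.ord_mul hA0 hu0, hAd]
  have hMo : P.ord M.det = 1 + P.ord A.det := by
    rw [hMd, P.ord_mul hl.ne hA0, hl.unif]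
  -- the entries
  have hMe : ∀ i j, Ge P 0 (M i j) := by
    intro i j
    rw [hM, Matrix.of_apply]
    by_cases hj : j ∈ Set.range ι
    · obtain ⟨k, rfl⟩ := hj
      have h1 := hl.log i (x (ι k))
      rw [hyr, ← hxu k, ← mul_div_assoc]
      exact h1
    · rw [hyn j hj, div_one]
      have h1 := (hl.log i (x j))
      have h2 : Ge P 0 ((lc z i0 i • G i) (x j) / x j * x j) := by
        have h3 := Ge.mul (show Ge P 0 ((lc z i0 i • G i) (x j) / x j) from h1)
          (show Ge P 0 (x j) from Or.inr (hregF j hj).ge)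
        simpa using h3
      rw [div_mul_cancel₀ _ (hx0 j)] at h2
      exact h2
  have hM' : Ge P 0 M.det := Pool.Agent.W619.PQ.ge_det P _ hMe
  have haM : 0 ≤ P.ord M.det := hM'.resolve_left hM0
  -- the expansions
  have hexp : ∀ (D : Derivation ℂ K K) (f : K), D f = ∑ j, D (x j) * E j f := by
    intro D f
    have h1 := Pool.Agent.W73.PG.PULL.expand x hx E hE D
    have h2 := congrArg (fun T : Derivation ℂ K K => T f) h1
    simp only [sum_smul_apply] at h2
    exact h2.symm
  have hexpA : ∀ (i : Fin n) (f : K), ∑ j, A i j * (y j * E j f) = G i f := by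
    intro i f
    rw [hexp (G i) f]
    refine Finset.sum_congr rfl fun j _ => ?_
    rw [hA, Matrix.of_apply, ← mul_assoc, div_mul_cancel₀ _ (hy0 j)]
  have hexpM : ∀ (i : Fin n) (f : K), ∑ j, M i j * (y j * E j f) = lc z i0 i * G i f := by
    intro i f
    rw [← hexpA i f, Finset.mul_sum]
    refine Finset.sum_congr rfl fun j _ => ?_
    rw [hM, hA, Matrix.of_apply, Matrix.of_apply, mul_assoc]
  have hzero : ∀ j, j ∉ Set.range ι → P.ord (y j) = 0 := by
    intro j hj
    rw [hyn j hj, P.ord_one]
  refine ⟨P.ord M.det, ?_, haM, ?_, ?_, ?_⟩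
  · rw [hwd, hMo]
    have h1 : (P.ord d : ℚ) = P.ord A.det + ∑ i, (P.ord (u i) : ℚ) := by
      rw [← hAo]
      push_cast
      ring
    rw [h1]
    push_cast
    ring
  · intro hU
    have hAe : ∀ i j, Ge P 0 (A i j) := by
      intro i j
      rw [hA, Matrix.of_apply]
      by_cases hj : j ∈ Set.range ι
      · obtain ⟨k, rfl⟩ := hj
        refine ge_divu (hl.pres i _ (Or.inr ?_)) (hy0 _) ?_
        · rw [hxu, hU k]
        · rw [hyr, hU k]
      · exact ge_divu (hl.pres i _ (Or.inr (hregF j hj).ge)) (hy0 _) (hzero j hj)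
    have h1 := (Pool.Agent.W619.PQ.ge_det P _ hAe).resolve_left hA0
    rw [hMo]
    omega
  · intro ha
    -- logarithmic type
    have hreg : ∀ f : K, f ≠ 0 → ∀ j, Ge P 0 (y j * E j f / f) := by
      intro f hf j
      refine reg_solve M hMe hM0 ha (fun j => y j * E j f / f)
        (fun i => lc z i0 i * G i f / f) (fun i => ?_) (fun i => hl.log i f) j
      rw [← hexpM i f, Finset.sum_div]
      exact Finset.sum_congr rfl fun j _ => (mul_div_assoc _ _ _).symm
    have hres : ∀ f : K, f ≠ 0 → Ge P 1 (z i0 * G i0 f / f - (P.ord f : K)) := by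
      intro f hf
      obtain ⟨v, hv, hv0, -, h1⟩ := logder_eq P (G i0) hl.unif hf
      have h2 : G i0 (z i0) = 1 := by
        rw [hl.dual, if_pos rfl]
      rw [mul_div_assoc, h1, h2, mul_add, ← mul_assoc, mul_comm (z i0) (P.ord f : K), mul_assoc,
        mul_one_div_cancel hl.ne, mul_one, add_sub_cancel_right]
      have h3 := (ge_ord P (z i0)).mul (ge_logder_reg (hl.pres i0) hv hv0)
      rw [hl.unif, add_zero] at h3
      exact h3
    have hMres : ∀ j, Ge P 1 (M i0 j - (P.ord (y j) : K)) := by
      intro j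
      rw [hM, Matrix.of_apply, lc, if_pos rfl, ← mul_div_assoc]
      by_cases hj : j ∈ Set.range ι
      · obtain ⟨k, rfl⟩ := hj
        have h1 := hres (x (ι k)) (hx0 _)
        rw [hyr, ← hxu k]
        exact h1
      · rw [hyn j hj, P.ord_one, Int.cast_zero, sub_zero, div_one]
        have h1 := (ge_ord P (z i0)).mul (hl.pres i0 _ (Or.inr (hregF j hj).ge))
        rw [hl.unif, add_zero] at h1
        exact h1
    refine ⟨fun i f => ?_, fun f hf => ?_⟩
    · by_cases hf : f = 0
      · rw [hf, div_zero]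
        exact P.reg_zero
      · have h1 := hreg f hf (ι i)
        rw [hyr] at h1
        exact h1
    · have h1 : dl (fun i => u i • E (ι i)) (rho u P) f =
          ∑ i, (P.ord (u i) : K) * (y (ι i) * E (ι i) f) := by
        unfold dl
        rw [← Derivation.coeFnAddMonoidHom_apply, map_sum, Finset.sum_apply]
        refine Finset.sum_congr rfl fun i _ => ?_
        rw [hyr]
        change rho u P i • (u i * E (ι i) f) = _
        rw [rho, Algebra.smul_def, map_intCast]
      have h2 : ∑ i, (P.ord (u i) : K) * (y (ι i) * E (ι i) f) =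
          ∑ j, (P.ord (y j) : K) * (y j * E j f) := by
        refine Fintype.sum_of_injective ι hι _ _ (fun j hj => ?_) fun i => ?_
        · rw [hzero j hj, Int.cast_zero, zero_mul]
        · rw [hyr]
      have h3 : dl (fun i => u i • E (ι i)) (rho u P) f / f - (P.ord f : K) =
          (z i0 * G i0 f / f - (P.ord f : K)) -
            ∑ j, (M i0 j - (P.ord (y j) : K)) * (y j * E j f / f) := by
        have h4 : z i0 * G i0 f = ∑ j, M i0 j * (y j * E j f) := by
          rw [hexpM, lc, if_pos rfl]
        rw [h1, h2, h4, Finset.sum_div, Finset.sum_div]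
        have h5 : ∀ j, (M i0 j - (P.ord (y j) : K)) * (y j * E j f / f) =
            M i0 j * (y j * E j f) / f - (P.ord (y j) : K) * (y j * E j f) / f := by
          intro j
          ring
        simp only [h5, Finset.sum_sub_distrib]
        ring
      rw [h3]
      refine (hres f hf).sub (Ge.sum _ _ fun j _ => ?_)
      have h6 := (hMres j).mul (hreg f hf j)
      rwa [add_zero] at h6
  · intro ha hU
    refine ⟨hU, fun i f hf => ?_⟩
    have hAe : ∀ i j, Ge P 0 (A i j) := by
      intro i j
      rw [hA, Matrix.of_apply]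
      by_cases hj : j ∈ Set.range ι
      · obtain ⟨k, rfl⟩ := hj
        refine ge_divu (hl.pres i _ (Or.inr ?_)) (hy0 _) ?_
        · rw [hxu, hU k]
        · rw [hyr, hU k]
      · exact ge_divu (hl.pres i _ (Or.inr (hregF j hj).ge)) (hy0 _) (hzero j hj)
    have h1 : P.ord A.det = 0 := by omega
    have h2 := reg_solve A hAe hA0 h1 (fun j => y j * E j f) (fun i => G i f)
      (fun i => hexpA i f) (fun i => hl.pres i f hf) (ι i)
    rw [hyr] at h2
    exact h2

end Pool.Agent.NH53.UF
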